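import Mathlib

/-!
# MP_8096dd_al : almost all modules of elementary abelian 2-groups, basic notions

Notation of the paper proof: `K` a finite field with `q` elements, `V` a `K`-space of dimension
`m`, `x` an endomorphism with `x * x = 0`.
-/

namespace H77AA

open Module

variable {K : Type*} [Field K] {V : Type*} [AddCommGroup V] [Module K V]
  {W : Type*} [AddCommGroup W] [Module K W]

/-- The rank of a linear map. -/
noncomputable abbrev rk (f : V →ₗ[K] W) : ℕ := finrank K (LinearMap.range f)

/-- The set of all `y` of square zero commuting with `x` and mapping the kernel of `x` into the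
image of `x`. -/
def YSet (x : Module.End K V) : Set (Module.End K V) :=
  {y | y * y = 0 ∧ x * y = y * x ∧ ∀ v, x v = 0 → y v ∈ LinearMap.range x}

theorem finite_hom [Finite K] [FiniteDimensional K V] [FiniteDimensional K W] :
    Finite (V →ₗ[K] W) := Module.finite_of_finite K

theorem finite_sub [Finite K] [FiniteDimensional K V] : Finite (Submodule K V) := by
  haveI : Finite V := Module.finite_of_finite K
  exact Finite.of_injective (fun S : Submodule K V => (S : Set V)) SetLike.coe_injective

theorem natCard_hom [Finite K] [FiniteDimensional K V] [FiniteDimensional K W] :
    Nat.card (V →ₗ[K] W) = Nat.card K ^ (finrank K V * finrank K W) := by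
  rw [Module.natCard_eq_pow_finrank (K := K), Module.finrank_linearMap]

end H77AA
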