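import Pool.Agent.Helper77.GJ.Final
import Pool.Agent.Helper77.AA.Basic

/-!
# MP_8096dd_al : almost all modules of elementary abelian 2-groups, definitions for the result
-/

namespace H77AA

open Module H77CI H77GJ

/-- The elementary abelian group of order `2 ^ r`. -/
abbrev EA (r : ℕ) : Type := Multiplicative (Fin r → ZMod 2)

/-- The representations of degree `m` over `K` of the elementary abelian group of order `2 ^ r`:
homomorphisms into the matrices of size `m` over `K`. -/
abbrev MRep (r m : ℕ) (K : Type) [Field K] : Type := EA r →* Matrix (Fin m) (Fin m) K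

/-- The module over the algebraic closure of `K` belonging to a representation over `K`. -/
noncomputable def bar {r m : ℕ} {K : Type} [Field K] (ρ : MRep r m K) :
    Representation (AlgebraicClosure K) (EA r) (Fin m → AlgebraicClosure K) where
  toFun g := Matrix.toLin' ((ρ g).map (algebraMap K (AlgebraicClosure K)))
  map_one' := by
    rw [map_one, Matrix.map_one _ (map_zero _) (map_one _), Matrix.toLin'_one]
    rfl
  map_mul' g h := by
    rw [map_mul, Matrix.map_mul, Matrix.toLin'_mul]
    rfl

theorem bar_apply {r m : ℕ} {K : Type} [Field K] (ρ : MRep r m K) (g : EA r) :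
    bar ρ g = Matrix.toLin' ((ρ g).map (algebraMap K (AlgebraicClosure K))) := rfl

/-- The `i`-th generator. -/
def gen {r : ℕ} (i : Fin r) : EA r := Multiplicative.ofAdd (Pi.single i 1)

variable {K : Type*} [Field K]

/-- The first matrix of the pencil. -/
def E1 (K : Type*) [Field K] (a : ℕ) : Matrix (Fin (a + 1)) (Fin a) K :=
  Matrix.of fun i j => if i = j.castSucc then 1 else 0

/-- The second matrix of the pencil. -/
def E2 (K : Type*) [Field K] (a : ℕ) : Matrix (Fin (a + 1)) (Fin a) K :=
  Matrix.of fun i j => if i = j.succ then 1 else 0

/-- The block matrix with lower left block `Y` and other blocks zero. -/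
def nilM {a : ℕ} (Y : Matrix (Fin (a + 1)) (Fin a) K) :
    Matrix (Fin (a + (a + 1))) (Fin (a + (a + 1))) K :=
  Matrix.reindex finSumFinEquiv finSumFinEquiv (Matrix.fromBlocks 0 0 Y 0)

end H77AA
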