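import Pool.Agent.Helper77.AA.Basic

/-!
# Block AA-MR : maximal rank and the kernel

Proof of `maps_ker`. Suppose `x v = 0` and `y v ∉ range x`; `R = rk x < dim V`. Choose
`u : Fin R → V` with `x ∘ u` linearly independent. Then the `R + 1` vectors `x (u i)`, `y v` are
linearly independent; choose a linear map `w : V → (Fin (R + 1) → K)` sending them to the standard
basis. The matrix of the vectors `w ((x + t y) (u i))` (`i < R`), `w (y v)` has determinant a
polynomial `p (t)` of degree at most `R` with `p (0) = 1`. As `q - 1 > R` there is `t ≠ 0` with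
`p (t) ≠ 0`. Then `(x + t y) (u i)` and `(x + t y) v = t y v` are `R + 1` linearly independent
vectors in the range of `x + t y`, a contradiction. (One may also avoid determinants: the vectors
`x (u i)`, `y v` are independent; use the polynomial determinant lemma or the fact that a matrix
polynomial `1 + t B` is singular for at most `R` values of `t`, namely when `- 1 / t` is an
eigenvalue of `B`.)

Proof of `card_rank_lt`. Choose `u : (Fin R → K) → V`, `w : V → (Fin R → K)` linear with
`w ∘ (a + ∑ t0 j • b j) ∘ u = 1`. The determinant of `w ∘ (a + ∑ X j • b j) ∘ u` is a polynomial in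
the `X j` of total degree at most `R` which is not zero (value `1` at `t0`); where it does not
vanish the rank is at least `R`. Use `MvPolynomial.schwartz_zippel_totalDegree` with `S = univ`.
-/

namespace H77AA

open Module

private theorem exists_lift67 {K : Type*} [Field K] {V W : Type*} [AddCommGroup V] [Module K V]
    [AddCommGroup W] [Module K W] [FiniteDimensional K V] (f : V →ₗ[K] W) :
    ∃ u : (Fin (rk f) → K) →ₗ[K] V, Function.Injective (f ∘ₗ u) := by
  obtain ⟨g, hg⟩ := LinearMap.exists_rightInverse_of_surjective f.rangeRestrict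
    (LinearMap.range_rangeRestrict f)
  let e : (Fin (rk f) → K) ≃ₗ[K] LinearMap.range f :=
    (Module.finBasis K (LinearMap.range f)).equivFun.symm
  refine ⟨g ∘ₗ e.toLinearMap, ?_⟩
  intro a b hab
  have h1 : ∀ c, f (g c) = (c : W) := by
    intro c
    have := congrArg (fun l => ((l c : LinearMap.range f) : W)) hg
    simpa using this
  have h2 : (e a : W) = (e b : W) := by
    have := hab
    simp only [LinearMap.comp_apply, LinearEquiv.coe_coe] at this
    rwa [h1, h1] at this
  exact e.injective (Subtype.ext h2)

private theorem le_rk67 {K : Type*} [Field K] {V W E : Type*} [AddCommGroup V] [Module K V]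
    [AddCommGroup W] [Module K W] [AddCommGroup E] [Module K E] [FiniteDimensional K V]
    (f : V →ₗ[K] W) (g : E →ₗ[K] V) (h : Function.Injective (f ∘ₗ g)) :
    finrank K E ≤ rk f := by
  have h1 : finrank K E = finrank K (LinearMap.range (f ∘ₗ g)) :=
    (LinearMap.finrank_range_of_inj h).symm
  rw [h1]
  exact Submodule.finrank_mono (LinearMap.range_comp_le_range g f)

theorem maps_ker {K : Type*} [Field K] [Finite K] {V : Type*} [AddCommGroup V] [Module K V]
    [FiniteDimensional K V] (hq : finrank K V < Nat.card K) (x y : Module.End K V)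
    (h : ∀ t : K, rk (x + t • y) ≤ rk x) (v : V) (hv : x v = 0) : y v ∈ LinearMap.range x := by
  by_contra hnot
  have := Fintype.ofFinite K
  have hv0 : v ≠ 0 := by
    rintro rfl
    exact hnot (by simp)
  have hR : rk x + 1 ≤ finrank K V := by
    have h1 : rk x + finrank K (LinearMap.ker x) = finrank K V :=
      LinearMap.finrank_range_add_finrank_ker x
    have h2 : 0 < finrank K (LinearMap.ker x) := by
      rw [Module.finrank_pos_iff]
      exact ⟨⟨v, hv⟩, 0, fun hh => hv0 (congrArg Subtype.val hh)⟩
    omega
  obtain ⟨u, hu⟩ := exists_lift67 x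
  let F : ((Fin (rk x) → K) × K) →ₗ[K] V :=
    LinearMap.coprod (x ∘ₗ u) (LinearMap.toSpanSingleton K V (y v))
  have hF : ∀ c s, F (c, s) = x (u c) + s • y v := by
    intro c s
    simp [F]
  have hFinj : LinearMap.ker F = ⊥ := by
    rw [LinearMap.ker_eq_bot']
    rintro ⟨c, s⟩ hcs
    rw [hF] at hcs
    by_cases hs : s = 0
    · subst hs
      rw [zero_smul, add_zero] at hcs
      have : c = 0 := hu (by simpa using hcs)
      rw [this]
      rfl
    · exfalso
      apply hnot
      refine ⟨-(s⁻¹ • u c), ?_⟩
      have h3 : y v = s⁻¹ • (s • y v) := by rw [smul_smul, inv_mul_cancel₀ hs, one_smul]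
      have h4 : s • y v = - x (u c) := by
        rw [eq_neg_iff_add_eq_zero, add_comm]
        exact hcs
      rw [h3, h4]
      simp
  obtain ⟨w, hw⟩ := LinearMap.exists_leftInverse_of_injective F hFinj
  have hw' : ∀ z, w (F z) = z := fun z => by
    have := congrArg (fun l => l z) hw
    simpa using this
  let B : Module.End K ((Fin (rk x) → K) × K) := w ∘ₗ y ∘ₗ u ∘ₗ LinearMap.fst K _ _
  have hB : ∀ z, B z = w (y (u z.1)) := fun z => rfl
  have hE : finrank K ((Fin (rk x) → K) × K) = rk x + 1 := by
    rw [Module.finrank_prod, Module.finrank_fin_fun, Module.finrank_self]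
  have key : ∀ t : K, t ≠ 0 → ∃ z, z ≠ 0 ∧ z + t • B z = 0 := by
    intro t ht
    by_contra hno
    push Not at hno
    let g : ((Fin (rk x) → K) × K) →ₗ[K] V :=
      LinearMap.coprod u (LinearMap.toSpanSingleton K V (t⁻¹ • v))
    have hg : ∀ z, (x + t • y) (g z) = F z + t • y (u z.1) := by
      rintro ⟨c, s⟩
      rw [hF]
      have h5 : g (c, s) = u c + s • (t⁻¹ • v) := by simp [g]
      rw [h5]
      simp only [LinearMap.add_apply, LinearMap.smul_apply, map_add, map_smul, hv, zero_add]

      have h6 : s • t⁻¹ • t • y v = s • y v := by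
        rw [smul_smul t⁻¹ t, inv_mul_cancel₀ ht, one_smul]
      rw [h6]
      abel
    have hinj : Function.Injective ((x + t • y) ∘ₗ g) := by
      rw [← LinearMap.ker_eq_bot, LinearMap.ker_eq_bot']
      intro z hz
      rw [LinearMap.comp_apply, hg] at hz
      by_contra hz0
      apply hno z hz0
      have h7 := congrArg w hz
      rw [map_add, map_smul, hw', map_zero] at h7
      exact h7
    have h8 := le_rk67 (x + t • y) g hinj
    have h9 := h t
    rw [hE] at h8
    omega
  have key2 : ∀ μ : K, ∃ z, B.HasEigenvector μ z := by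
    intro μ
    by_cases hμ : μ = 0
    · refine ⟨(0, 1), ?_⟩
      rw [Module.End.hasEigenvector_iff, Module.End.mem_eigenspace_iff, hB, hμ]
      refine ⟨by simp, ?_⟩
      intro hh
      exact one_ne_zero (congrArg Prod.snd hh)
    · obtain ⟨z, hz0, hz⟩ := key (-μ⁻¹) (neg_ne_zero.2 (inv_ne_zero hμ))
      refine ⟨z, ?_⟩
      rw [Module.End.hasEigenvector_iff, Module.End.mem_eigenspace_iff]
      refine ⟨?_, hz0⟩
      have h10 : z = μ⁻¹ • B z := by
        rw [neg_smul, ← sub_eq_add_neg, sub_eq_zero] at hz
        exact hz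
      calc B z = μ • (μ⁻¹ • B z) := by rw [smul_smul, mul_inv_cancel₀ hμ, one_smul]
        _ = μ • z := by rw [← h10]
  choose z hz using key2
  have hli := Module.End.eigenvectors_linearIndependent' B (fun μ : K => μ)
    (fun _ _ h => h) z hz
  have h11 := hli.fintype_card_le_finrank
  rw [hE] at h11
  rw [Nat.card_eq_fintype_card] at hq
  omega

theorem card_rank_lt {K : Type*} [Field K] [Finite K] {V : Type*} [AddCommGroup V] [Module K V]
    [FiniteDimensional K V] {n : ℕ} (a : Module.End K V) (b : Fin n → Module.End K V) (R : ℕ)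
    (t0 : Fin n → K) (h : rk (a + ∑ j, t0 j • b j) = R) :
    Nat.card {t : Fin n → K // rk (a + ∑ j, t j • b j) < R} * Nat.card K ≤
      R * Nat.card K ^ n := by
  classical
  have := Fintype.ofFinite K
  obtain ⟨u, hu⟩ : ∃ u : (Fin R → K) →ₗ[K] V,
      Function.Injective ((a + ∑ j, t0 j • b j) ∘ₗ u) := by
    rw [← h]
    exact exists_lift67 _
  obtain ⟨w, hw⟩ := LinearMap.exists_leftInverse_of_injective
    ((a + ∑ j, t0 j • b j) ∘ₗ u) (LinearMap.ker_eq_bot.2 hu)
  let A : Module.End K V → Matrix (Fin R) (Fin R) K := fun f => LinearMap.toMatrix' (w ∘ₗ f ∘ₗ u)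
  have hAadd : ∀ t : Fin n → K, A (a + ∑ j, t j • b j) = A a + ∑ j, t j • A (b j) := by
    intro t
    ext i k
    simp only [A, LinearMap.toMatrix'_apply, LinearMap.comp_apply, LinearMap.add_apply,
      Matrix.add_apply, Matrix.sum_apply, Matrix.smul_apply, map_add, Pi.add_apply,
      LinearMap.sum_apply, map_sum, LinearMap.smul_apply, map_smul, Finset.sum_apply, Pi.smul_apply]
  let M : Matrix (Fin R) (Fin R) (MvPolynomial (Fin n) K) := Matrix.of fun i k =>
    MvPolynomial.C (A a i k) + ∑ j, MvPolynomial.X j * MvPolynomial.C (A (b j) i k)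
  have hev : ∀ t : Fin n → K, MvPolynomial.eval t M.det = (A (a + ∑ j, t j • b j)).det := by
    intro t
    rw [RingHom.map_det]
    congr 1
    rw [hAadd]
    ext i k
    simp [M, Matrix.sum_apply]
  have hne : M.det ≠ 0 := by
    intro h0
    have h1 := hev t0
    rw [h0, map_zero] at h1
    have h2 : A (a + ∑ j, t0 j • b j) = 1 := by
      simp only [A]
      rw [hw, LinearMap.toMatrix'_id]
    rw [h2, Matrix.det_one] at h1
    exact zero_ne_one h1
  have hdeg : M.det.totalDegree ≤ R := by
    rw [Matrix.det_apply']
    refine MvPolynomial.totalDegree_finsetSum_le fun σ _ => ?_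
    refine (MvPolynomial.totalDegree_mul _ _).trans ?_
    have h3 : ((((Equiv.Perm.sign σ : ℤˣ) : ℤ) : MvPolynomial (Fin n) K)).totalDegree = 0 := by
      rcases Int.units_eq_one_or (Equiv.Perm.sign σ) with h | h <;> rw [h] <;> simp
    rw [h3, zero_add]
    refine (MvPolynomial.totalDegree_finsetProd _ _).trans ?_
    refine (Finset.sum_le_card_nsmul _ _ 1 fun i _ => ?_).trans (by simp)
    simp only [M, Matrix.of_apply]
    refine (MvPolynomial.totalDegree_add _ _).trans (max_le ?_ ?_)
    · rw [MvPolynomial.totalDegree_C]; exact Nat.zero_le _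
    · refine MvPolynomial.totalDegree_finsetSum_le fun j _ => ?_
      refine (MvPolynomial.totalDegree_mul _ _).trans ?_
      rw [MvPolynomial.totalDegree_C, MvPolynomial.totalDegree_X]
  have hsz := MvPolynomial.schwartz_zippel_totalDegree hne (Finset.univ : Finset K)
  have hsub : Nat.card {t : Fin n → K // rk (a + ∑ j, t j • b j) < R} ≤
      (Finset.filter (fun f => MvPolynomial.eval f M.det = 0)
        (Fintype.piFinset fun _ : Fin n => (Finset.univ : Finset K))).card := by
    rw [Nat.card_eq_fintype_card, Fintype.card_subtype]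
    refine Finset.card_le_card fun t ht => ?_
    rw [Finset.mem_filter] at ht ⊢
    refine ⟨by simp, ?_⟩
    rw [hev]
    by_contra hdet
    have hinj : Function.Injective ((a + ∑ j, t j • b j) ∘ₗ u) := by
      have h4 : Function.Injective (w ∘ₗ (a + ∑ j, t j • b j) ∘ₗ u) := by
        have h7 : Function.Injective (A (a + ∑ j, t j • b j)).mulVec :=
          Matrix.mulVec_injective_iff_isUnit.2
            ((Matrix.isUnit_iff_isUnit_det _).2 (isUnit_iff_ne_zero.2 hdet))
        intro p q hpq
        apply h7
        simp only [A]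
        rw [LinearMap.toMatrix'_mulVec, LinearMap.toMatrix'_mulVec]
        exact hpq
      intro p q hpq
      apply h4
      simp only [LinearMap.comp_apply] at hpq ⊢
      rw [hpq]
    have h5 := le_rk67 _ u hinj
    rw [Module.finrank_fin_fun] at h5
    omega
  have hq0 : (0 : ℚ≥0) < (Fintype.card K : ℚ≥0) := by exact_mod_cast Fintype.card_pos
  rw [Finset.card_univ, div_le_div_iff₀ (by positivity) hq0] at hsz
  have h6 : (Finset.filter (fun f => MvPolynomial.eval f M.det = 0)
        (Fintype.piFinset fun _ : Fin n => (Finset.univ : Finset K))).card * Fintype.card K ≤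
      M.det.totalDegree * Fintype.card K ^ n := by exact_mod_cast hsz
  rw [Nat.card_eq_fintype_card (α := K)]
  exact (Nat.mul_le_mul_right _ hsub).trans (h6.trans (Nat.mul_le_mul_right _ hdeg))

end H77AA
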