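import Pool.Agent.Helper77.AA.YS
import Pool.Agent.Helper77.AA.MR

/-!
# Block AA-TUP : counting commuting tuples of bounded rank

`m = dim V`, `q = Nat.card K > 2 m`. Proof. For a tuple `x` in the set let
`R' = R' (x) ≤ R` be the maximum over `t : Fin n → K` of the rank of
`z (x, t) = x 0 + ∑ j, t j • x (j + 1)`. By `card_rank_lt` at least `q ^ n / 2` of the `t` have
`rk (z (x, t)) = R'` (as `R' * q ^ n ≤ m q ^ n ≤ q * q ^ n / 2`). For fixed `t` the map
`x ↦ x'`, `x' 0 = z (x, t)`, `x' (j + 1) = x (j + 1)` is injective and keeps the conditions and the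
number `R'` (`z (x', t') = z (x, t + t')`). So, with `T` the set of tuples with `R' (x) = R'` and
`T0` the subset with `rk (x 0) = R'`, `#T * q ^ n ≤ 2 * q ^ n * #T0`. For `x` in `T0`, `x 0` has
square zero and rank `R'` (`card_sqzero`: at most `2 ^ m * q ^ (2 R' (m - R'))` choices, and
`R' (m - R') ≤ R (m - R)` as `R' ≤ R ≤ m / 2`), and every `x (j + 1)` is in `YSet (x 0)` by
`maps_ker` (`rk (x 0 + c • x (j + 1)) ≤ R'` for all `c`), so there are at most
`((m + 1) ^ 2 * 4 ^ m * q ^ (m ^ 2 / 4)) ^ n` choices (`card_Y`). Sum over the `R' ≤ R ≤ m`.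
-/

namespace H77AA

open Module

/-- The constant of the bound for tuples. -/
def CT (m n : ℕ) : ℕ := 2 * (m + 1) * 2 ^ m * ((m + 1) ^ 2 * 4 ^ m) ^ n

section Tup

variable {K : Type*} [Field K] {V : Type*} [AddCommGroup V] [Module K V]

/-- The condition on the tuples. -/
private def PT {n : ℕ} (R : ℕ) (x : Fin (n + 1) → Module.End K V) : Prop :=
  (∀ i, x i * x i = 0) ∧ (∀ i j, x i * x j = x j * x i) ∧
    ∀ c : Fin (n + 1) → K, rk (∑ i, c i • x i) ≤ R

/-- The substituted element. -/
private def zT {n : ℕ} (x : Fin (n + 1) → Module.End K V) (t : Fin n → K) : Module.End K V :=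
  x 0 + ∑ j, t j • x j.succ

/-- The substitution. -/
private def shT {n : ℕ} (t : Fin n → K) (x : Fin (n + 1) → Module.End K V) :
    Fin (n + 1) → Module.End K V :=
  Fin.cons (zT x t) (fun j => x j.succ)

private lemma comm_sum {n : ℕ} {x : Fin (n + 1) → Module.End K V}
    (h : ∀ i j, x i * x j = x j * x i) (c d : Fin (n + 1) → K) :
    (∑ i, c i • x i) * (∑ i, d i • x i) = (∑ i, d i • x i) * (∑ i, c i • x i) := by
  rw [Finset.sum_mul_sum, Finset.sum_mul_sum, Finset.sum_comm]
  refine Finset.sum_congr rfl fun i _ => Finset.sum_congr rfl fun j _ => ?_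
  rw [smul_mul_smul_comm, smul_mul_smul_comm, h j i, mul_comm (c j)]

private lemma sq_sum [CharP K 2] {n : ℕ} {x : Fin (n + 1) → Module.End K V}
    (h0 : ∀ i, x i * x i = 0) (h : ∀ i j, x i * x j = x j * x i) (c : Fin (n + 1) → K) :
    (∑ i, c i • x i) * (∑ i, c i • x i) = 0 := by
  have h2 : ∀ a : Module.End K V, a + a = 0 := by
    intro a
    rw [← two_smul K a, CharTwo.two_eq_zero, zero_smul]
  have key : ∀ s : Finset (Fin (n + 1)),
      (∑ i ∈ s, c i • x i) * (∑ i ∈ s, c i • x i) = 0 := by
    intro s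
    induction s using Finset.induction_on with
    | empty => simp
    | insert a s ha ih =>
      rw [Finset.sum_insert ha]
      have h3 : (c a • x a) * (∑ i ∈ s, c i • x i) = (∑ i ∈ s, c i • x i) * (c a • x a) := by
        rw [Finset.mul_sum, Finset.sum_mul]
        refine Finset.sum_congr rfl fun i _ => ?_
        rw [smul_mul_smul_comm, smul_mul_smul_comm, h a i, mul_comm (c a)]
      have h4 : (c a • x a) * (c a • x a) = 0 := by
        rw [smul_mul_smul_comm, h0, smul_zero]
      rw [add_mul, mul_add, mul_add, ih, h4, ← h3, zero_add, add_zero, h2]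
  exact key Finset.univ

private lemma PT_subst [CharP K 2] {n R : ℕ} {x y : Fin (n + 1) → Module.End K V}
    (hx : PT R x) (A : Fin (n + 1) → Fin (n + 1) → K) (hy : ∀ i, y i = ∑ k, A i k • x k) :
    PT R y := by
  refine ⟨fun i => ?_, fun i j => ?_, fun c => ?_⟩
  · rw [hy]
    exact sq_sum hx.1 hx.2.1 _
  · rw [hy, hy]
    exact comm_sum hx.2.1 _ _
  · have h1 : ∑ i, c i • y i = ∑ k, (∑ i, c i * A i k) • x k := by
      simp only [hy, Finset.smul_sum, smul_smul, Finset.sum_smul]
      rw [Finset.sum_comm]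
    rw [h1]
    exact hx.2.2 _

private lemma zT_eq {n : ℕ} (x : Fin (n + 1) → Module.End K V) (t : Fin n → K) :
    zT x t = ∑ i, (Fin.cons 1 t : Fin (n + 1) → K) i • x i := by
  rw [Fin.sum_univ_succ]
  simp [zT]

private lemma PT_sh [CharP K 2] {n R : ℕ} {x : Fin (n + 1) → Module.End K V}
    (hx : PT R x) (t : Fin n → K) : PT R (shT t x) := by
  refine PT_subst hx (Fin.cons (Fin.cons 1 t) (fun j => Pi.single j.succ 1)) fun i => ?_
  refine Fin.cases ?_ (fun j => ?_) i
  · simp only [shT, Fin.cons_zero]
    exact zT_eq x t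
  · simp only [shT, Fin.cons_succ]
    rw [Finset.sum_eq_single j.succ]
    · simp
    · intro k _ hk
      rw [Pi.single_eq_of_ne hk, zero_smul]
    · intro h
      exact absurd (Finset.mem_univ _) h

private lemma zT_sh {n : ℕ} (x : Fin (n + 1) → Module.End K V) (t t' : Fin n → K) :
    zT (shT t x) t' = zT x (t + t') := by
  simp only [zT, shT, Fin.cons_zero, Fin.cons_succ, Pi.add_apply, add_smul,
    Finset.sum_add_distrib]
  rw [add_assoc]

private lemma sh_injective {n : ℕ} (t : Fin n → K) :
    Function.Injective (shT (V := V) t) := by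
  intro x y h
  have h1 : ∀ j : Fin n, x j.succ = y j.succ := by
    intro j
    have := congrFun h j.succ
    simpa [shT] using this
  have h2 : zT x t = zT y t := by
    have := congrFun h 0
    simpa [shT] using this
  funext i
  refine Fin.cases ?_ (fun j => h1 j) i
  simp only [zT, h1] at h2
  exact add_right_cancel h2

variable [Fintype K]

/-- The maximal rank. -/
private noncomputable def mrT {n : ℕ} (x : Fin (n + 1) → Module.End K V) : ℕ :=
  Finset.univ.sup (fun t : Fin n → K => rk (zT x t))

private lemma le_mrT {n : ℕ} (x : Fin (n + 1) → Module.End K V) (t : Fin n → K) :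
    rk (zT x t) ≤ mrT x :=
  Finset.le_sup (f := fun t : Fin n → K => rk (zT x t)) (Finset.mem_univ t)

private lemma exists_mrT {n : ℕ} (x : Fin (n + 1) → Module.End K V) :
    ∃ t : Fin n → K, rk (zT x t) = mrT x := by
  obtain ⟨t, _, ht⟩ := Finset.exists_mem_eq_sup (Finset.univ : Finset (Fin n → K))
    Finset.univ_nonempty (fun t : Fin n → K => rk (zT x t))
  exact ⟨t, ht.symm⟩

private lemma mrT_sh {n : ℕ} (x : Fin (n + 1) → Module.End K V) (t : Fin n → K) :
    mrT (shT t x) = mrT x := by
  refine le_antisymm ?_ ?_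
  · obtain ⟨t', ht'⟩ := exists_mrT (shT t x)
    rw [← ht', zT_sh]
    exact le_mrT x _
  · obtain ⟨t', ht'⟩ := exists_mrT x
    have h := le_mrT (shT t x) (t' - t)
    rw [zT_sh, add_sub_cancel] at h
    rw [← ht']
    exact h

private lemma mrT_le {n R : ℕ} {x : Fin (n + 1) → Module.End K V} (hx : PT R x) :
    mrT x ≤ R := by
  obtain ⟨t, ht⟩ := exists_mrT x
  rw [← ht, zT_eq]
  exact hx.2.2 _

end Tup

section Count

variable {K : Type*} [Field K] [Fintype K] [CharP K 2] {V : Type*} [AddCommGroup V] [Module K V]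
  [FiniteDimensional K V] [Fintype (Module.End K V)]

open Classical in
private lemma half_T (n R r : ℕ) (hq : 2 * finrank K V < Nat.card K) :
    (Finset.univ.filter fun x : Fin (n + 1) → Module.End K V => PT R x ∧ mrT x = r).card ≤
      2 * (Finset.univ.filter fun x : Fin (n + 1) → Module.End K V =>
        PT R x ∧ mrT x = r ∧ rk (x 0) = r).card := by
  set T := Finset.univ.filter fun x : Fin (n + 1) → Module.End K V => PT R x ∧ mrT x = r
    with hT
  set T0 := Finset.univ.filter fun x : Fin (n + 1) → Module.End K V =>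
    PT R x ∧ mrT x = r ∧ rk (x 0) = r with hT0
  set q := Nat.card K with hqdef
  have hqpos : 0 < q := Nat.card_pos
  have hcardt : Fintype.card (Fin n → K) = q ^ n := by
    rw [Fintype.card_fun, Fintype.card_fin, hqdef, Nat.card_eq_fintype_card]
  -- lower bound
  have hlow : ∀ x ∈ T, q ^ n ≤ 2 * (Finset.univ.filter fun t : Fin n → K =>
      rk (zT x t) = r).card := by
    intro x hx
    rw [hT, Finset.mem_filter] at hx
    obtain ⟨_, hP, hr⟩ := hx
    obtain ⟨t0, ht0⟩ := exists_mrT x
    rw [hr] at ht0
    have h1 := card_rank_lt (x 0) (fun j : Fin n => x j.succ) r t0 ht0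
    have h2 : Nat.card {t : Fin n → K // rk (x 0 + ∑ j, t j • x j.succ) < r} =
        (Finset.univ.filter fun t : Fin n → K => rk (zT x t) < r).card := by
      rw [Nat.card_eq_fintype_card, Fintype.card_subtype]
      rfl
    rw [h2] at h1
    have h3 : (Finset.univ.filter fun t : Fin n → K => rk (zT x t) = r).card +
        (Finset.univ.filter fun t : Fin n → K => rk (zT x t) < r).card = q ^ n := by
      rw [← hcardt, ← Finset.card_univ]
      rw [← Finset.card_filter_add_card_filter_not (s := Finset.univ)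
        (fun t : Fin n → K => rk (zT x t) = r)]
      congr 2
      refine Finset.filter_congr fun t _ => ?_
      have h4 := le_mrT x t
      rw [hr] at h4
      constructor
      · intro h; exact h.ne
      · intro h; exact lt_of_le_of_ne h4 h
    have h5 : r ≤ finrank K V := by
      rw [← ht0]
      exact Submodule.finrank_le _
    have h6 : 2 * (Finset.univ.filter fun t : Fin n → K => rk (zT x t) < r).card ≤ q ^ n := by
      have h7 : (2 * (Finset.univ.filter fun t : Fin n → K => rk (zT x t) < r).card) * q ≤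
          q ^ n * q := by
        calc (2 * (Finset.univ.filter fun t : Fin n → K => rk (zT x t) < r).card) * q =
            2 * ((Finset.univ.filter fun t : Fin n → K => rk (zT x t) < r).card * q) := by ring
          _ ≤ 2 * (r * q ^ n) := Nat.mul_le_mul_left _ h1
          _ = (2 * r) * q ^ n := by ring
          _ ≤ q * q ^ n := Nat.mul_le_mul_right _ (by omega)
          _ = q ^ n * q := by ring
      exact Nat.le_of_mul_le_mul_right h7 hqpos
    omega
  -- upper bound
  have hupp : ∀ t : Fin n → K, (T.filter fun x => rk (zT x t) = r).card ≤ T0.card := by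
    intro t
    refine Finset.card_le_card_of_injOn (shT t) ?_ ((sh_injective t).injOn)
    intro x hx
    rw [Finset.mem_coe, Finset.mem_filter, hT, Finset.mem_filter] at hx
    rw [Finset.mem_coe, hT0, Finset.mem_filter]
    refine ⟨Finset.mem_univ _, PT_sh hx.1.2.1 t, ?_, ?_⟩
    · rw [mrT_sh]
      exact hx.1.2.2
    · have : shT t x 0 = zT x t := by simp [shT]
      rw [this]
      exact hx.2
  have hdc := Finset.sum_card_bipartiteAbove_eq_sum_card_bipartiteBelow
    (s := T) (t := (Finset.univ : Finset (Fin n → K))) (fun x t => rk (zT x t) = r)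
  have h8 : T.card * q ^ n ≤ 2 * ∑ x ∈ T, (Finset.univ.filter fun t : Fin n → K =>
      rk (zT x t) = r).card := by
    rw [Finset.mul_sum, ← smul_eq_mul]
    exact Finset.card_nsmul_le_sum _ _ _ hlow
  have h9 : ∑ t : Fin n → K, (T.filter fun x => rk (zT x t) = r).card ≤ q ^ n * T0.card := by
    refine (Finset.sum_le_card_nsmul _ _ _ fun t _ => hupp t).trans ?_
    rw [Finset.card_univ, hcardt, smul_eq_mul]
  have h10 : T.card * q ^ n ≤ (2 * T0.card) * q ^ n := by
    refine h8.trans ?_
    have h11 : ∑ x ∈ T, (Finset.univ.filter fun t : Fin n → K => rk (zT x t) = r).card =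
        ∑ t : Fin n → K, (T.filter fun x => rk (zT x t) = r).card := hdc
    rw [h11]
    calc 2 * ∑ t : Fin n → K, (T.filter fun x => rk (zT x t) = r).card ≤
        2 * (q ^ n * T0.card) := Nat.mul_le_mul_left _ h9
      _ = (2 * T0.card) * q ^ n := by ring
  exact Nat.le_of_mul_le_mul_right h10 (pow_pos hqpos n)

omit [CharP K 2] in
open Classical in
private lemma card_T0 (n R r : ℕ) (hr : r ≤ R) (hR : 2 * R ≤ finrank K V)
    (hq : 2 * finrank K V < Nat.card K) :
    (Finset.univ.filter fun x : Fin (n + 1) → Module.End K V =>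
        PT R x ∧ mrT x = r ∧ rk (x 0) = r).card ≤
      (2 ^ finrank K V * Nat.card K ^ (2 * R * (finrank K V - R))) *
        ((finrank K V + 1) ^ 2 * 4 ^ finrank K V * Nat.card K ^ (finrank K V ^ 2 / 4)) ^ n := by
  set m := finrank K V with hm
  set q := Nat.card K with hqdef
  have hqpos : 0 < q := Nat.card_pos
  set X := Finset.univ.filter fun x0 : Module.End K V => x0 * x0 = 0 ∧ rk x0 = r with hX
  have hXcard : X.card ≤ 2 ^ m * q ^ (2 * R * (m - R)) := by
    have h1 : X.card = Nat.card {x : Module.End K V // x * x = 0 ∧ rk x = r} := by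
      rw [Nat.card_eq_fintype_card, Fintype.card_subtype]
    rw [h1]
    refine (card_sqzero r).trans ?_
    refine Nat.mul_le_mul (Nat.pow_le_pow_right (by norm_num) (by omega)) ?_
    refine Nat.pow_le_pow_right hqpos ?_
    obtain ⟨d, hd⟩ := Nat.exists_eq_add_of_le hr
    obtain ⟨k, hk⟩ := Nat.exists_eq_add_of_le hR
    have e1 : m - r = r + 2 * d + k := by omega
    have e2 : m - R = r + d + k := by omega
    have e3 : finrank K V - r = m - r := by rw [hm]
    rw [e3, e1, e2, hd]
    nlinarith [Nat.zero_le (d * d), Nat.zero_le (d * k)]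
  set Y : Module.End K V → Finset (Module.End K V) := fun x0 =>
    Finset.univ.filter fun y => y ∈ YSet x0 with hY
  have hYcard : ∀ x0 ∈ X, (Y x0).card ≤ (m + 1) ^ 2 * 4 ^ m * q ^ (m ^ 2 / 4) := by
    intro x0 hx0
    rw [hX, Finset.mem_filter] at hx0
    have h1 : (Y x0).card = Nat.card (YSet x0) := by
      have h2 : Nat.card (YSet x0) = Nat.card {y : Module.End K V // y ∈ YSet x0} := rfl
      rw [h2, Nat.card_eq_fintype_card, Fintype.card_subtype]
    rw [h1]
    exact card_Y x0 hx0.2.1
  have hsub : (Finset.univ.filter fun x : Fin (n + 1) → Module.End K V =>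
      PT R x ∧ mrT x = r ∧ rk (x 0) = r).card ≤
      (X.sigma fun x0 => Fintype.piFinset fun _ : Fin n => Y x0).card := by
    refine Finset.card_le_card_of_injOn
      (fun x => (⟨x 0, fun j => x j.succ⟩ : Σ _ : Module.End K V, Fin n → Module.End K V)) ?_ ?_
    · intro x hx
      rw [Finset.mem_coe, Finset.mem_filter] at hx
      obtain ⟨_, hP, hmr, h0⟩ := hx
      rw [Finset.mem_coe, Finset.mem_sigma]
      refine ⟨?_, ?_⟩
      · rw [hX, Finset.mem_filter]
        exact ⟨Finset.mem_univ _, hP.1 0, h0⟩
      · rw [Fintype.mem_piFinset]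
        intro j
        simp only [hY, Finset.mem_filter, Finset.mem_univ, true_and]
        refine ⟨hP.1 j.succ, hP.2.1 0 j.succ, fun v hv => ?_⟩
        refine maps_ker (by omega) (x 0) (x j.succ) (fun c => ?_) v hv
        have h3 : x 0 + c • x j.succ = zT x (Pi.single j c) := by
          unfold zT
          rw [Finset.sum_eq_single j]
          · rw [Pi.single_eq_same]
          · intro k _ hk
            rw [Pi.single_eq_of_ne hk, zero_smul]
          · intro h
            exact absurd (Finset.mem_univ _) h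
        rw [h3, h0, ← hmr]
        exact le_mrT x _
    · intro x _ y _ hxy
      simp only [Sigma.mk.injEq, heq_eq_eq] at hxy
      funext i
      refine Fin.cases hxy.1 (fun j => congrFun hxy.2 j) i
  refine hsub.trans ?_
  rw [Finset.card_sigma]
  calc ∑ x0 ∈ X, (Fintype.piFinset fun _ : Fin n => Y x0).card ≤
      X.card • ((m + 1) ^ 2 * 4 ^ m * q ^ (m ^ 2 / 4)) ^ n := by
        refine Finset.sum_le_card_nsmul _ _ _ fun x0 hx0 => ?_
        rw [Fintype.card_piFinset, Finset.prod_const, Finset.card_univ, Fintype.card_fin]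
        exact Nat.pow_le_pow_left (hYcard x0 hx0) n
    _ ≤ _ := by
        rw [smul_eq_mul]
        exact Nat.mul_le_mul_right _ hXcard

end Count

theorem card_tuples {K : Type*} [Field K] [Finite K] [CharP K 2] {V : Type*} [AddCommGroup V]
    [Module K V] [FiniteDimensional K V] (n R : ℕ) (hR : 2 * R ≤ finrank K V)
    (hq : 2 * finrank K V < Nat.card K) :
    Nat.card {x : Fin (n + 1) → Module.End K V // (∀ i, x i * x i = 0) ∧
        (∀ i j, x i * x j = x j * x i) ∧ ∀ c : Fin (n + 1) → K, rk (∑ i, c i • x i) ≤ R} ≤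
      CT (finrank K V) n *
        Nat.card K ^ (2 * R * (finrank K V - R) + n * (finrank K V ^ 2 / 4)) := by
  classical
  let _ : Fintype K := Fintype.ofFinite K
  have : Finite (Module.End K V) := finite_hom
  let _ : Fintype (Module.End K V) := Fintype.ofFinite _
  set m := finrank K V with hm
  set q := Nat.card K with hqdef
  have h1 : Nat.card {x : Fin (n + 1) → Module.End K V // (∀ i, x i * x i = 0) ∧
        (∀ i j, x i * x j = x j * x i) ∧ ∀ c : Fin (n + 1) → K, rk (∑ i, c i • x i) ≤ R} =
      (Finset.univ.filter fun x : Fin (n + 1) → Module.End K V => PT R x).card := by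
    change Nat.card {x : Fin (n + 1) → Module.End K V // PT R x} = _
    rw [Nat.card_eq_fintype_card, Fintype.card_subtype]
  rw [h1]
  have h2 : (Finset.univ.filter fun x : Fin (n + 1) → Module.End K V => PT R x).card =
      ∑ r ∈ Finset.range (R + 1), (Finset.univ.filter fun x : Fin (n + 1) → Module.End K V =>
        PT R x ∧ mrT x = r).card := by
    rw [Finset.card_eq_sum_card_fiberwise (f := mrT) (t := Finset.range (R + 1))]
    · refine Finset.sum_congr rfl fun r _ => ?_
      rw [Finset.filter_filter]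
    · intro x hx
      rw [Finset.mem_coe, Finset.mem_filter] at hx
      rw [Finset.mem_coe, Finset.mem_range]
      exact Nat.lt_succ_of_le (mrT_le hx.2)
  rw [h2]
  have h3 : ∀ r ∈ Finset.range (R + 1),
      (Finset.univ.filter fun x : Fin (n + 1) → Module.End K V => PT R x ∧ mrT x = r).card ≤
        2 * ((2 ^ m * q ^ (2 * R * (m - R))) *
          ((m + 1) ^ 2 * 4 ^ m * q ^ (m ^ 2 / 4)) ^ n) := by
    intro r hr
    refine (half_T n R r hq).trans (Nat.mul_le_mul_left _ ?_)
    exact card_T0 n R r (Nat.lt_succ_iff.1 (Finset.mem_range.1 hr)) hR hq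
  refine (Finset.sum_le_card_nsmul _ _ _ h3).trans ?_
  rw [Finset.card_range, smul_eq_mul]
  calc (R + 1) * (2 * ((2 ^ m * q ^ (2 * R * (m - R))) *
          ((m + 1) ^ 2 * 4 ^ m * q ^ (m ^ 2 / 4)) ^ n)) ≤
      (m + 1) * (2 * ((2 ^ m * q ^ (2 * R * (m - R))) *
          ((m + 1) ^ 2 * 4 ^ m * q ^ (m ^ 2 / 4)) ^ n)) :=
        Nat.mul_le_mul_right _ (by omega)
    _ = CT m n * q ^ (2 * R * (m - R) + n * (m ^ 2 / 4)) := by
        unfold CT
        rw [pow_add, mul_pow _ (q ^ (m ^ 2 / 4)) n, ← pow_mul q (m ^ 2 / 4) n,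
          mul_comm (m ^ 2 / 4) n]
        ring

end H77AA
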