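import Pool.Agent.Helper77.AA.Defs
import Pool.Agent.Helper77.AA.Tup

/-!
# Block AA-UPP : the exceptional representations

`m = a + (a + 1)`, `1 ≤ a`, `r = n + 1`. Proof of `bad_rank`: let `x i` be the endomorphism of
`Fin m → K` with matrix `ρ (gen i) - 1`; `x i * x i = 0` (characteristic 2, `gen i` has square 1)
and they commute, so every combination `z = ∑ c i • x i` has square zero, hence rank at most `a`.
If the rank were `a` then the same combination of the `bar ρ (gen i) - 1` (coefficients mapped to the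
closure) has rank `a` too (rank of a matrix does not change under field extension) and
`decomposes_of_generic` (Pool/Agent/Helper77/GJ/Final.lean) with `J = Fin r`, `g = gen` gives
`TrivPlusFour (tw (bar ρ))`.

Proof of `card_bad`. `ρ ↦ (i ↦ toLin' (ρ (gen i) - 1))` is injective (the `gen i` generate) and maps
the set to the set of `card_tuples` with `V = Fin m → K`, `R = a - 1`; the exponent is
`2 (a - 1) (a + 2) + n (a (a + 1)) = (n + 2) (a (a + 1)) - 4`.
-/

namespace H77AA

open Module H77CI H77GJ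

private theorem sum_sq_zero {K : Type*} [Field K] [CharP K 2] {ι n : Type*} [Fintype n]
    [DecidableEq n] (N : ι → Matrix n n K) (h0 : ∀ i, N i * N i = 0)
    (hc : ∀ i j, N i * N j = N j * N i) (c : ι → K) (s : Finset ι) :
    (∑ i ∈ s, c i • N i) * (∑ i ∈ s, c i • N i) = 0 := by
  classical
  have hcom : ∀ (s : Finset ι) (j : ι),
      (∑ i ∈ s, c i • N i) * N j = N j * (∑ i ∈ s, c i • N i) := by
    intro s j
    rw [Finset.sum_mul, Finset.mul_sum]
    exact Finset.sum_congr rfl fun i _ => by rw [smul_mul_assoc, mul_smul_comm, hc]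
  induction s using Finset.induction_on with
  | empty => simp
  | insert a s ha ih =>
    rw [Finset.sum_insert ha, add_mul, mul_add, mul_add, ih, add_zero, smul_mul_smul_comm, h0,
      smul_zero, zero_add, smul_mul_assoc, mul_smul_comm, hcom, ← two_smul K, CharTwo.two_eq_zero,
      zero_smul]

private theorem two_rk_le {K : Type*} [Field K] {m : ℕ} (Z : Matrix (Fin m) (Fin m) K)
    (h : Z * Z = 0) : 2 * rk (Matrix.toLin' Z) ≤ m := by
  have h1 : LinearMap.range (Matrix.toLin' Z) ≤ LinearMap.ker (Matrix.toLin' Z) := by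
    rintro _ ⟨v, rfl⟩
    rw [LinearMap.mem_ker, ← LinearMap.comp_apply, ← Matrix.toLin'_mul, h, map_zero,
      LinearMap.zero_apply]
  have h2 := Submodule.finrank_mono h1
  have h3 := LinearMap.finrank_range_add_finrank_ker (Matrix.toLin' Z)
  rw [Module.finrank_fin_fun] at h3
  change 2 * finrank K (LinearMap.range (Matrix.toLin' Z)) ≤ m
  omega

private theorem rk_le_map {K L : Type} [Field K] [Field L] [Algebra K L] {m : ℕ}
    (Z : Matrix (Fin m) (Fin m) K) :
    rk (Matrix.toLin' Z) ≤ rk (Matrix.toLin' (Z.map (algebraMap K L))) := by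
  obtain ⟨A, B, hAB⟩ := exists_mul_mul_eq_one Z
  have h1 : A.map (algebraMap K L) * Z.map (algebraMap K L) * B.map (algebraMap K L) = 1 := by
    rw [← Matrix.map_mul, ← Matrix.map_mul, hAB, Matrix.map_one _ (map_zero _) (map_one _)]
  have h2 : (1 : Matrix (Fin Z.rank) (Fin Z.rank) L).rank = Z.rank := by
    rw [Matrix.rank_one, Fintype.card_fin]
  have h3 : Z.rank ≤ (Z.map (algebraMap K L)).rank := by
    rw [← h2, ← h1]
    exact (Matrix.rank_mul_le_left _ _).trans (Matrix.rank_mul_le_right _ _)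
  exact h3

private theorem gen_sq {r : ℕ} (i : Fin r) : (gen i : EA r) * gen i = 1 := by
  unfold gen
  rw [← ofAdd_add, ← Pi.single_add]
  have : (1 : ZMod 2) + 1 = 0 := by decide
  rw [this, Pi.single_zero, ofAdd_zero]

private theorem rho_sub_sq {K : Type} [Field K] [CharP K 2] {r m : ℕ} (ρ : MRep r m K)
    (i : Fin r) : (ρ (gen i) - 1) * (ρ (gen i) - 1) = 0 := by
  have h1 : ρ (gen i) * ρ (gen i) = 1 := by rw [← map_mul, gen_sq, map_one]
  have h2 : (ρ (gen i) - 1) * (ρ (gen i) - 1) =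
      ρ (gen i) * ρ (gen i) - ρ (gen i) - ρ (gen i) + 1 := by noncomm_ring
  rw [h2, h1]
  have h3 : (1 : Matrix (Fin m) (Fin m) K) - ρ (gen i) - ρ (gen i) + 1 =
      (2 : K) • (1 - ρ (gen i)) := by
    rw [two_smul]; abel
  rw [h3, CharTwo.two_eq_zero, zero_smul]

private theorem rho_sub_comm {K : Type} [Field K] {r m : ℕ} (ρ : MRep r m K)
    (i j : Fin r) : (ρ (gen i) - 1) * (ρ (gen j) - 1) = (ρ (gen j) - 1) * (ρ (gen i) - 1) := by
  have h1 : ρ (gen i) * ρ (gen j) = ρ (gen j) * ρ (gen i) := by rw [← map_mul, ← map_mul, mul_comm]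
  have e : ∀ A B : Matrix (Fin m) (Fin m) K, (A - 1) * (B - 1) = A * B - A - B + 1 := by
    intro A B
    noncomm_ring
  rw [e, e, h1]
  abel

theorem bad_rank {K : Type} [Field K] [CharP K 2] {a r : ℕ} (ρ : MRep r (a + (a + 1)) K)
    (hi : Indec (bar ρ)) (hb : ¬ TrivPlusFour (tw (bar ρ))) (c : Fin r → K) :
    rk (∑ i, c i • (Matrix.toLin' (ρ (gen i) - 1) :
      Module.End K (Fin (a + (a + 1)) → K))) + 1 ≤ a := by
  classical
  set Z : Matrix (Fin (a + (a + 1))) (Fin (a + (a + 1))) K := ∑ i, c i • (ρ (gen i) - 1) with hZ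
  have hZ2 : Z * Z = 0 := sum_sq_zero _ (rho_sub_sq ρ) (rho_sub_comm ρ) c _
  have hZ3 : (∑ i, c i • (Matrix.toLin' (ρ (gen i) - 1) :
      Module.End K (Fin (a + (a + 1)) → K))) = Matrix.toLin' Z := by
    rw [hZ, map_sum]
    exact Finset.sum_congr rfl fun i _ => by rw [map_smul]
  rw [hZ3]
  by_contra hcon
  have h1 : a ≤ rk (Matrix.toLin' Z) := by omega
  set φ := algebraMap K (AlgebraicClosure K) with hφ
  have h2 : rk (Matrix.toLin' Z) ≤ rk (Matrix.toLin' (Z.map φ)) := rk_le_map Z
  have h3 : (Z.map φ) * (Z.map φ) = 0 := by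
    rw [← Matrix.map_mul, hZ2]
    exact Matrix.map_zero _ (map_zero _)
  have h4 := two_rk_le _ h3
  have h5 : rk (Matrix.toLin' (Z.map φ)) = a := by omega
  refine hb (decomposes_of_generic (bar ρ) ?_ hi gen ?_ ?_ (fun i => φ (c i)) ?_)
  · rw [Module.finrank_fin_fun]
    exact ⟨a, by ring⟩
  · intro j g
    rw [← map_mul, ← map_mul, mul_comm]
  · intro j
    rw [← map_mul, gen_sq, map_one]
  · have h6 : comb (bar ρ) gen (fun i => φ (c i)) = Matrix.toLin' (Z.map φ) := by
      unfold comb zOne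
      have h7 : Z.map φ = ∑ i, φ (c i) • ((ρ (gen i)).map φ - 1) := by
        ext x y
        simp only [hZ, Matrix.map_apply, Matrix.sum_apply, Matrix.smul_apply, Matrix.sub_apply,
          smul_eq_mul, map_sum, map_mul, map_sub]
        refine Finset.sum_congr rfl fun i _ => ?_
        congr 2
        by_cases hxy : x = y
        · subst hxy; simp
        · simp [Matrix.one_apply_ne hxy]
      rw [h7, map_sum]
      refine Finset.sum_congr rfl fun i _ => ?_
      rw [map_smul, map_sub, Matrix.toLin'_one, bar_apply]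
    rw [h6, Module.finrank_fin_fun]
    change 2 * rk (Matrix.toLin' (Z.map φ)) + 1 = _
    rw [h5]
    ring

private theorem ext_gen {M : Type*} [Monoid M] {r : ℕ} (ρ ρ' : EA r →* M)
    (h : ∀ i, ρ (gen i) = ρ' (gen i)) : ρ = ρ' := by
  classical
  refine MonoidHom.ext fun g => ?_
  have hg : g = ∏ i : Fin r, Multiplicative.ofAdd (Pi.single i (Multiplicative.toAdd g i)) := by
    rw [← ofAdd_sum, Finset.univ_sum_single]
    rfl
  have hS : g ∈ MonoidHom.eqLocusM ρ ρ' := by
    rw [hg]
    refine Submonoid.prod_mem _ fun i _ => ?_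
    have h2 : ∀ t : ZMod 2, t = 0 ∨ t = 1 := by decide
    rcases h2 (Multiplicative.toAdd g i) with h3 | h3
    · rw [h3, Pi.single_zero, ofAdd_zero]
      exact Submonoid.one_mem _
    · rw [h3]
      exact h i
  exact hS

theorem card_bad (K : Type) [Field K] [Finite K] [CharP K 2] {a : ℕ} (ha : 0 < a) (n : ℕ)
    (hq : 2 * (a + (a + 1)) < Nat.card K) :
    Nat.card {ρ : MRep (n + 1) (a + (a + 1)) K //
        Indec (bar ρ) ∧ ¬ TrivPlusFour (tw (bar ρ))} * Nat.card K ^ 4 ≤
      CT (a + (a + 1)) n * Nat.card K ^ ((n + 2) * (a * (a + 1))) := by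
  classical
  have hfr : finrank K (Fin (a + (a + 1)) → K) = a + (a + 1) := Module.finrank_fin_fun K
  have hT := card_tuples (K := K) (V := Fin (a + (a + 1)) → K) n (a - 1)
    (by rw [hfr]; omega) (by rw [hfr]; exact hq)
  rw [hfr] at hT
  have : Finite (Module.End K (Fin (a + (a + 1)) → K)) := finite_hom
  have hle : Nat.card {ρ : MRep (n + 1) (a + (a + 1)) K //
        Indec (bar ρ) ∧ ¬ TrivPlusFour (tw (bar ρ))} ≤
      Nat.card {x : Fin (n + 1) → Module.End K (Fin (a + (a + 1)) → K) // (∀ i, x i * x i = 0) ∧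
        (∀ i j, x i * x j = x j * x i) ∧ ∀ c : Fin (n + 1) → K, rk (∑ i, c i • x i) ≤ a - 1} := by
    refine Nat.card_le_card_of_injective (fun ρ => ⟨fun i => Matrix.toLin' (ρ.1 (gen i) - 1),
      ?_, ?_, ?_⟩) ?_
    · intro i
      have := rho_sub_sq ρ.1 i
      rw [Module.End.mul_eq_comp, ← Matrix.toLin'_mul, this, map_zero]
    · intro i j
      have := rho_sub_comm ρ.1 i j
      rw [Module.End.mul_eq_comp, Module.End.mul_eq_comp, ← Matrix.toLin'_mul,
        ← Matrix.toLin'_mul, this]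
    · intro c
      exact Nat.le_sub_one_of_lt (bad_rank ρ.1 ρ.2.1 ρ.2.2 c)
    · intro ρ ρ' h
      refine Subtype.ext (ext_gen _ _ fun i => ?_)
      have h1 := congrArg Subtype.val h
      have h2 := congrFun h1 i
      have h3 : ρ.1 (gen i) - 1 = ρ'.1 (gen i) - 1 := Matrix.toLin'.injective h2
      exact sub_left_injective h3
  have hexp : 2 * (a - 1) * (a + (a + 1) - (a - 1)) + n * ((a + (a + 1)) ^ 2 / 4) + 4 =
      (n + 2) * (a * (a + 1)) := by
    obtain ⟨b, rfl⟩ : ∃ b, a = b + 1 := ⟨a - 1, by omega⟩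
    have e1 : b + 1 - 1 = b := by omega
    have e2 : b + 1 + (b + 1 + 1) - b = b + 3 := by omega
    have e3 : (b + 1 + (b + 1 + 1)) ^ 2 / 4 = (b + 1) * (b + 1 + 1) := by
      have : (b + 1 + (b + 1 + 1)) ^ 2 = 1 + 4 * ((b + 1) * (b + 1 + 1)) := by ring
      rw [this, Nat.add_mul_div_left _ _ (by norm_num)]
      norm_num
    rw [e1, e2, e3]
    ring
  calc _ ≤ (CT (a + (a + 1)) n *
        Nat.card K ^ (2 * (a - 1) * (a + (a + 1) - (a - 1)) + n * ((a + (a + 1)) ^ 2 / 4))) *
          Nat.card K ^ 4 := Nat.mul_le_mul_right _ (hle.trans hT)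
    _ = _ := by rw [mul_assoc, ← pow_add, hexp]

end H77AA
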