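import Pool.Agent.Helper77.AA.Low
import Pool.Agent.Helper77.AA.Upp

/-!
# MP_8096dd_al : almost all modules of elementary abelian 2-groups, conclusion
-/

namespace H77AA

open Module H77CI H77GJ

theorem finite_mrep (r m : ℕ) (K : Type) [Field K] [Finite K] : Finite (MRep r m K) :=
  Finite.of_injective (fun ρ : MRep r m K => (ρ : EA r → Matrix (Fin m) (Fin m) K))
    DFunLike.coe_injective

theorem bad_le (r m : ℕ) (K : Type) [Field K] [Finite K] :
    Nat.card {ρ : MRep r m K // Indec (bar ρ) ∧ ¬ TrivPlusFour (tw (bar ρ))} ≤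
      Nat.card {ρ : MRep r m K // Indec (bar ρ)} := by
  have := finite_mrep r m K
  exact Nat.card_le_card_of_injective
    (fun ρ => (⟨ρ.1, ρ.2.1⟩ : {ρ : MRep r m K // Indec (bar ρ)}))
    (fun x y h => Subtype.ext (congrArg (fun z => z.1) h))

theorem almost_all (r m : ℕ) (hr : 2 ≤ r) (hm : Odd m) :
    ∃ C : ℕ, ∀ (K : Type) [Field K] [Finite K] [CharP K 2],
      Nat.card {ρ : MRep r m K // Indec (bar ρ) ∧ ¬ TrivPlusFour (tw (bar ρ))} *
          Nat.card K ^ 4 ≤
        C * Nat.card {ρ : MRep r m K // Indec (bar ρ)} := by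
  obtain ⟨a, ha⟩ := hm
  obtain rfl : m = a + (a + 1) := by omega
  obtain ⟨n, rfl⟩ : ∃ n, r = n + 2 := ⟨r - 2, by omega⟩
  rcases Nat.eq_zero_or_pos a with h0 | hpos
  · refine ⟨0, fun K _ _ _ => ?_⟩
    have : Nat.card {ρ : MRep (n + 2) (a + (a + 1)) K //
        Indec (bar ρ) ∧ ¬ TrivPlusFour (tw (bar ρ))} = 0 := by
      refine Nat.card_eq_zero.2 (Or.inl ⟨fun x => ?_⟩)
      have := bad_rank x.1 x.2.1 x.2.2 0
      omega
    rw [this]
    simp
  · refine ⟨CT (a + (a + 1)) (n + 1) * 2 ^ (a + (a + 1)) + (2 * (a + (a + 1))) ^ 4,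
      fun K _ _ _ => ?_⟩
    by_cases hq : 2 * (a + (a + 1)) < Nat.card K
    · have h1 := card_bad K hpos (n + 1) hq
      have h2 := card_indec K hpos n
      calc _ ≤ CT (a + (a + 1)) (n + 1) * Nat.card K ^ ((n + 1 + 2) * (a * (a + 1))) := h1
        _ ≤ CT (a + (a + 1)) (n + 1) * (2 ^ (a + (a + 1)) *
              Nat.card {ρ : MRep (n + 2) (a + (a + 1)) K // Indec (bar ρ)}) :=
            Nat.mul_le_mul_left _ h2
        _ = CT (a + (a + 1)) (n + 1) * 2 ^ (a + (a + 1)) *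
              Nat.card {ρ : MRep (n + 2) (a + (a + 1)) K // Indec (bar ρ)} := by ring
        _ ≤ _ := Nat.mul_le_mul_right _ (Nat.le_add_right _ _)
    · have h3 := bad_le (n + 2) (a + (a + 1)) K
      have h4 : Nat.card K ^ 4 ≤ (2 * (a + (a + 1))) ^ 4 :=
        Nat.pow_le_pow_left (not_lt.1 hq) 4
      calc _ ≤ Nat.card {ρ : MRep (n + 2) (a + (a + 1)) K // Indec (bar ρ)} *
            (2 * (a + (a + 1))) ^ 4 := Nat.mul_le_mul h3 h4
        _ = (2 * (a + (a + 1))) ^ 4 *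
              Nat.card {ρ : MRep (n + 2) (a + (a + 1)) K // Indec (bar ρ)} := mul_comm _ _
        _ ≤ _ := Nat.mul_le_mul_right _ (Nat.le_add_left _ _)

end H77AA
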