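import Pool.Agent.Helper77.AA.Pen

/-!
# Block AA-LOW : many absolutely indecomposable representations

`m = a + (a + 1)`, `b = a + 1`, `r = n + 2`, so `m ^ 2 = 4 a b + 1`.

Proof of `card_orbit`. The map `(P, Y') ↦ (i ↦ P * nilM (Y i) * P⁻¹)` (`Y 0 = E1`, `Y 1 = E2`,
`Y (i + 2) = Y' i`) from `GL m K × (Fin n → Matrix)` is onto the set. If `(P1, Y1)` and `(P2, Y2)`
have the same image then `H = P1⁻¹ P2` commutes with `nilM E1` and `nilM E2`, so by `pencil_comm`
`H = c + nilM N`; there are at most `q * q ^ (a b)` such `H`, and `P2 = P1 H` and the image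
determine `Y2` (`nilM_injective`). So every fibre has at most `q ^ (a b + 1)` elements and
`#GL * q ^ (n a b) ≤ #set * q ^ (a b + 1)`. Finally `2 ^ m * #GL ≥ q ^ (m ^ 2)` as
`#GL = ∏ (q ^ m - q ^ i)` (`Matrix.card_GL_field`) and `q ^ m - q ^ i ≥ q ^ m / 2`.

Proof of `card_indec`. For `x` in the set of `card_orbit` all products `x i * x j` are `0`
(`nilM_mul_nilM`), so `g ↦ 1 + ∑ i, (g i) • x i` (`g i : ZMod 2` cast to `K`,
`ZMod.castHom`) is a representation `ρ` with `ρ (gen i) = 1 + x i`, with `Indec (bar ρ)` by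
`indec_bar`; different `x` give different `ρ`.
-/

namespace H77AA

open Module H77CI H77GJ

private lemma two_pow_mul_card_GL_h65 (K : Type) [Field K] [Finite K] (m : ℕ) :
    Nat.card K ^ (m * m) ≤ 2 ^ m * Nat.card (GL (Fin m) K) := by
  have : Fintype K := Fintype.ofFinite K
  have hq : 2 ≤ Fintype.card K := Fintype.one_lt_card
  rw [Matrix.card_GL_field, Nat.card_eq_fintype_card]
  have h1 : (2 : ℕ) ^ m = ∏ _i : Fin m, 2 := by simp
  have h2 : Fintype.card K ^ (m * m) = ∏ _i : Fin m, Fintype.card K ^ m := by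
    simp [pow_mul]
  rw [h1, h2, ← Finset.prod_mul_distrib]
  refine Finset.prod_le_prod' fun i _ => ?_
  have h3 : 2 * Fintype.card K ^ (i : ℕ) ≤ Fintype.card K ^ m := by
    calc 2 * Fintype.card K ^ (i : ℕ) ≤ Fintype.card K * Fintype.card K ^ (i : ℕ) :=
          Nat.mul_le_mul_right _ hq
      _ = Fintype.card K ^ ((i : ℕ) + 1) := by rw [pow_succ, mul_comm]
      _ ≤ Fintype.card K ^ m := Nat.pow_le_pow_right (by omega) i.2
  omega

private lemma card_matrix_h65 (K : Type) [Field K] [Finite K] (b a : ℕ) :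
    Nat.card (Matrix (Fin b) (Fin a) K) = Nat.card K ^ (b * a) := by
  rw [Module.natCard_eq_pow_finrank (K := K), Module.finrank_matrix]
  simp

/-- the tuple `E1, E2, Y' 0, Y' 1, ...` -/
private def ext_h65 (K : Type) [Field K] {a n : ℕ} (Y : Fin n → Matrix (Fin (a + 1)) (Fin a) K) :
    Fin (n + 2) → Matrix (Fin (a + 1)) (Fin a) K :=
  Fin.cons (E1 K a) (Fin.cons (E2 K a) Y)

private lemma ext_zero_h65 (K : Type) [Field K] {a n : ℕ}
    (Y : Fin n → Matrix (Fin (a + 1)) (Fin a) K) : ext_h65 K Y 0 = E1 K a := rfl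

private lemma ext_one_h65 (K : Type) [Field K] {a n : ℕ}
    (Y : Fin n → Matrix (Fin (a + 1)) (Fin a) K) : ext_h65 K Y 1 = E2 K a := rfl

private lemma ext_succ_h65 (K : Type) [Field K] {a n : ℕ}
    (Y : Fin n → Matrix (Fin (a + 1)) (Fin a) K) (i : Fin n) : ext_h65 K Y i.succ.succ = Y i := by
  unfold ext_h65
  rw [Fin.cons_succ, Fin.cons_succ]

private lemma ext_of_h65 (K : Type) [Field K] {a n : ℕ}
    (Y : Fin (n + 2) → Matrix (Fin (a + 1)) (Fin a) K) (h0 : Y 0 = E1 K a) (h1 : Y 1 = E2 K a) :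
    ext_h65 K (fun i => Y i.succ.succ) = Y := by
  funext i
  refine Fin.cases ?_ (fun j => ?_) i
  · rw [ext_zero_h65, h0]
  · refine Fin.cases ?_ (fun l => ?_) j
    · exact h1.symm
    · rw [ext_succ_h65]

theorem card_orbit (K : Type) [Field K] [Finite K] {a : ℕ} (ha : 0 < a) (n : ℕ) :
    Nat.card K ^ ((n + 3) * (a * (a + 1))) ≤ 2 ^ (a + (a + 1)) *
      Nat.card {x : Fin (n + 2) → Matrix (Fin (a + (a + 1))) (Fin (a + (a + 1))) K //
        ∃ (P : GL (Fin (a + (a + 1))) K) (Y : Fin (n + 2) → Matrix (Fin (a + 1)) (Fin a) K),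
          Y 0 = E1 K a ∧ Y 1 = E2 K a ∧ ∀ i, x i = (P : Matrix _ _ K) * nilM (Y i) *
            ((P⁻¹ : GL (Fin (a + (a + 1))) K) : Matrix _ _ K)} := by
  set S := {x : Fin (n + 2) → Matrix (Fin (a + (a + 1))) (Fin (a + (a + 1))) K //
        ∃ (P : GL (Fin (a + (a + 1))) K) (Y : Fin (n + 2) → Matrix (Fin (a + 1)) (Fin a) K),
          Y 0 = E1 K a ∧ Y 1 = E2 K a ∧ ∀ i, x i = (P : Matrix _ _ K) * nilM (Y i) *
            ((P⁻¹ : GL (Fin (a + (a + 1))) K) : Matrix _ _ K)} with hS
  have hfM : Finite (Matrix (Fin (a + (a + 1))) (Fin (a + (a + 1))) K) :=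
    Module.finite_of_finite K
  have hfN : Finite (Matrix (Fin (a + 1)) (Fin a) K) := Module.finite_of_finite K
  have hfS : Finite S := Subtype.finite
  let F : GL (Fin (a + (a + 1))) K × (Fin n → Matrix (Fin (a + 1)) (Fin a) K) → S := fun p =>
    ⟨fun i => p.1.val * nilM (ext_h65 K p.2 i) *
      (p.1⁻¹).val,
      p.1, ext_h65 K p.2, ext_zero_h65 K p.2, ext_one_h65 K p.2, fun _ => rfl⟩
  have hFs : Function.Surjective F := by
    rintro ⟨x, P, Y, h0, h1, hx⟩
    refine ⟨(P, fun i => Y i.succ.succ), Subtype.ext (funext fun i => ?_)⟩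
    simp only [F]
    rw [ext_of_h65 K Y h0 h1, hx i]
  have hF : ∀ p i, (F p).1 i = p.1.val * nilM (ext_h65 K p.2 i) *
      (p.1⁻¹).val := fun p i => rfl
  -- conjugating back
  have hback : ∀ p i, (p.1⁻¹).val * (F p).1 i *
      p.1.val = nilM (ext_h65 K p.2 i) := by
    intro p i
    rw [hF]
    have h1 : (p.1⁻¹).val * p.1.val = 1 :=
      Units.inv_mul p.1
    calc (p.1⁻¹).val *
          (p.1.val * nilM (ext_h65 K p.2 i) *
          (p.1⁻¹).val) * p.1.val
        = ((p.1⁻¹).val * p.1.val) *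
          nilM (ext_h65 K p.2 i) *
          ((p.1⁻¹).val * p.1.val) := by
            simp only [Matrix.mul_assoc]
      _ = nilM (ext_h65 K p.2 i) := by rw [h1, Matrix.one_mul, Matrix.mul_one]
  have hcomm : ∀ p p' i, F p = F p' → (p.1⁻¹ * p'.1).val *
      nilM (ext_h65 K p'.2 i) = nilM (ext_h65 K p.2 i) *
      (p.1⁻¹ * p'.1).val := by
    intro p p' i h
    rw [← hback p' i, ← hback p i, h, Units.val_mul]
    have h1 : p'.1.val * (p'.1⁻¹).val = 1 :=
      Units.mul_inv p'.1
    have h2 : p.1.val * (p.1⁻¹).val = 1 :=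
      Units.mul_inv p.1
    calc (p.1⁻¹).val * p'.1.val *
          ((p'.1⁻¹).val * (F p').1 i *
          p'.1.val)
        = (p.1⁻¹).val * (p'.1.val *
          (p'.1⁻¹).val) * (F p').1 i *
          p'.1.val := by simp only [Matrix.mul_assoc]
      _ = (p.1⁻¹).val * (F p').1 i *
          p'.1.val := by rw [h1, Matrix.mul_one]
      _ = (p.1⁻¹).val * (F p').1 i *
          ((p.1.val * (p.1⁻¹).val) *
          p'.1.val) := by rw [h2, Matrix.one_mul]
      _ = (p.1⁻¹).val * (F p').1 i *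
          p.1.val * ((p.1⁻¹).val *
          p'.1.val) := by simp only [Matrix.mul_assoc]
  let p0 : S → GL (Fin (a + (a + 1))) K × (Fin n → Matrix (Fin (a + 1)) (Fin a) K) :=
    Function.surjInv hFs
  have hp0 : ∀ x, F (p0 x) = x := Function.surjInv_eq hFs
  have hex : ∀ p, ∃ cN : K × Matrix (Fin (a + 1)) (Fin a) K,
      ((p0 (F p)).1⁻¹ * p.1).val =
        cN.1 • 1 + nilM cN.2 := by
    intro p
    obtain ⟨c, N, h⟩ := pencil_comm ha
      ((p0 (F p)).1⁻¹ * p.1).val
      (by
        have h := hcomm (p0 (F p)) p 0 (hp0 (F p))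
        rwa [ext_zero_h65, ext_zero_h65] at h)
      (by
        have h := hcomm (p0 (F p)) p 1 (hp0 (F p))
        rwa [ext_one_h65, ext_one_h65] at h)
    exact ⟨(c, N), h⟩
  choose cn hcn using hex
  let Φ : GL (Fin (a + (a + 1))) K × (Fin n → Matrix (Fin (a + 1)) (Fin a) K) →
      S × (K × Matrix (Fin (a + 1)) (Fin a) K) := fun p => (F p, cn p)
  have hΦ : Function.Injective Φ := by
    intro p p' h
    simp only [Φ, Prod.mk.injEq] at h
    obtain ⟨h1, h2⟩ := h
    have h3 : ((p0 (F p)).1⁻¹ * p.1).val =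
        ((p0 (F p)).1⁻¹ * p'.1).val := by
      rw [hcn p, h2, ← hcn p', h1]
    have h4 : p.1 = p'.1 := mul_left_cancel (Units.ext h3)
    have h5 : p.2 = p'.2 := by
      funext i
      have h6 : nilM (ext_h65 K p.2 i.succ.succ) = nilM (ext_h65 K p'.2 i.succ.succ) := by
        rw [← hback p, ← hback p', h1, h4]
      have h7 := nilM_injective h6
      rwa [ext_succ_h65, ext_succ_h65] at h7
    exact Prod.ext h4 h5
  have hcard := Nat.card_le_card_of_injective Φ hΦ
  rw [Nat.card_prod, Nat.card_prod, Nat.card_prod, Nat.card_fun, Nat.card_fin,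
    card_matrix_h65] at hcard
  have hGL := two_pow_mul_card_GL_h65 K (a + (a + 1))
  have hq0 : 0 < Nat.card K := Nat.card_pos
  have hm : (a + (a + 1)) * (a + (a + 1)) = 4 * (a * (a + 1)) + 1 := by ring
  rw [hm] at hGL
  have hmul : Nat.card K ^ (a * (a + 1) + 1) * Nat.card K ^ ((n + 3) * (a * (a + 1))) ≤
      Nat.card K ^ (a * (a + 1) + 1) * (2 ^ (a + (a + 1)) * Nat.card S) := by
    calc Nat.card K ^ (a * (a + 1) + 1) * Nat.card K ^ ((n + 3) * (a * (a + 1)))
        = Nat.card K ^ (4 * (a * (a + 1)) + 1) * (Nat.card K ^ ((a + 1) * a)) ^ n := by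
          rw [← pow_mul, ← pow_add, ← pow_add]
          congr 1
          ring
      _ ≤ 2 ^ (a + (a + 1)) * Nat.card (GL (Fin (a + (a + 1))) K) *
          (Nat.card K ^ ((a + 1) * a)) ^ n := Nat.mul_le_mul_right _ hGL
      _ = 2 ^ (a + (a + 1)) * (Nat.card (GL (Fin (a + (a + 1))) K) *
          (Nat.card K ^ ((a + 1) * a)) ^ n) := by ring
      _ ≤ 2 ^ (a + (a + 1)) * (Nat.card S * (Nat.card K * Nat.card K ^ ((a + 1) * a))) :=
          Nat.mul_le_mul_left _ hcard
      _ = Nat.card K ^ (a * (a + 1) + 1) * (2 ^ (a + (a + 1)) * Nat.card S) := by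
          rw [mul_comm (a + 1) a]
          ring
  exact Nat.le_of_mul_le_mul_left hmul (pow_pos hq0 _)

theorem card_indec (K : Type) [Field K] [Finite K] [CharP K 2] {a : ℕ} (ha : 0 < a) (n : ℕ) :
    Nat.card K ^ ((n + 3) * (a * (a + 1))) ≤ 2 ^ (a + (a + 1)) *
      Nat.card {ρ : MRep (n + 2) (a + (a + 1)) K // Indec (bar ρ)} := by
  refine (card_orbit K ha n).trans (Nat.mul_le_mul_left _ ?_)
  have hfM : Finite (Matrix (Fin (a + (a + 1))) (Fin (a + (a + 1))) K) :=
    Module.finite_of_finite K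
  have hfE : Finite (EA (n + 2)) := inferInstanceAs (Finite (Fin (n + 2) → ZMod 2))
  have hfR : Finite (MRep (n + 2) (a + (a + 1)) K) :=
    Finite.of_injective (fun ρ : MRep (n + 2) (a + (a + 1)) K => (ρ : EA (n + 2) → _))
      DFunLike.coe_injective
  have hfI : Finite {ρ : MRep (n + 2) (a + (a + 1)) K // Indec (bar ρ)} := Subtype.finite
  let ζ : ZMod 2 →+* K := ZMod.castHom (dvd_refl 2) K
  -- the products vanish
  have hprod : ∀ (x : {x : Fin (n + 2) → Matrix (Fin (a + (a + 1))) (Fin (a + (a + 1))) K //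
        ∃ (P : GL (Fin (a + (a + 1))) K) (Y : Fin (n + 2) → Matrix (Fin (a + 1)) (Fin a) K),
          Y 0 = E1 K a ∧ Y 1 = E2 K a ∧ ∀ i, x i = P.val * nilM (Y i) *
            (P⁻¹).val}) (i j : Fin (n + 2)),
      x.1 i * x.1 j = 0 := by
    rintro ⟨x, P, Y, -, -, hx⟩ i j
    simp only [hx]
    have h1 : (P⁻¹).val * P.val = 1 :=
      Units.inv_mul P
    calc P.val * nilM (Y i) * (P⁻¹).val *
          (P.val * nilM (Y j) * (P⁻¹).val)
        = P.val * (nilM (Y i) * (((P⁻¹).val * P.val) * nilM (Y j))) *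
          (P⁻¹).val := by simp only [Matrix.mul_assoc]
      _ = 0 := by rw [h1, Matrix.one_mul, nilM_mul_nilM, Matrix.mul_zero, Matrix.zero_mul]
  let R : {x : Fin (n + 2) → Matrix (Fin (a + (a + 1))) (Fin (a + (a + 1))) K //
        ∃ (P : GL (Fin (a + (a + 1))) K) (Y : Fin (n + 2) → Matrix (Fin (a + 1)) (Fin a) K),
          Y 0 = E1 K a ∧ Y 1 = E2 K a ∧ ∀ i, x i = P.val * nilM (Y i) *
            (P⁻¹).val} → MRep (n + 2) (a + (a + 1)) K :=
    fun x =>
      { toFun := fun g => 1 + ∑ i, ζ (Multiplicative.toAdd g i) • x.1 i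
        map_one' := by simp
        map_mul' := by
          intro g h
          have h1 : (∑ i, ζ (Multiplicative.toAdd g i) • x.1 i) *
              (∑ j, ζ (Multiplicative.toAdd h j) • x.1 j) = 0 := by
            rw [Finset.sum_mul_sum]
            refine Finset.sum_eq_zero fun i _ => Finset.sum_eq_zero fun j _ => ?_
            rw [Matrix.smul_mul, Matrix.mul_smul, hprod x i j, smul_zero, smul_zero]
          have h2 : ∑ i, ζ (Multiplicative.toAdd (g * h) i) • x.1 i =
              ∑ i, ζ (Multiplicative.toAdd g i) • x.1 i +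
              ∑ i, ζ (Multiplicative.toAdd h i) • x.1 i := by
            rw [← Finset.sum_add_distrib]
            refine Finset.sum_congr rfl fun i _ => ?_
            rw [toAdd_mul, Pi.add_apply, map_add, add_smul]
          rw [h2, mul_add, add_mul, add_mul, h1]
          simp only [one_mul, mul_one, add_zero]
          abel }
  have hR : ∀ x i, R x (gen i) = 1 + x.1 i := by
    intro x i
    change 1 + ∑ j, ζ (Multiplicative.toAdd (gen i) j) • x.1 j = 1 + x.1 i
    congr 1
    rw [Finset.sum_eq_single i]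
    · simp [gen]
    · intro j _ hj
      simp [gen, Pi.single_eq_of_ne hj]
    · intro h
      exact absurd (Finset.mem_univ _) h
  refine Nat.card_le_card_of_injective (fun x => ⟨R x, ?_⟩) ?_
  · obtain ⟨x, P, Y, h0, h1, hx⟩ := x
    exact indec_bar ha _ P Y h0 h1 (fun i => by rw [hR]; simp only [hx])
  · intro x x' h
    simp only [Subtype.mk.injEq] at h
    apply Subtype.ext
    funext i
    have h1 := hR x i
    rw [h, hR x' i] at h1
    exact (add_left_cancel h1).symm

end H77AA
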