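import Pool.Agent.Helper77.AA.Sub

/-!
# Block AA-MAPS : number of linear maps of given rank, of square-zero maps of given rank,
and of subspaces containing a given one

Proof of `card_maps_rank`: `f` is determined by its range `S` (dimension `t`, `card_subspaces`) and
by the corestriction `V → S` (`q ^ (dim V * t)` maps); the exponents add up:
`t * (w - t) + v * t = t * (v + w - t)`. If `t > w` or `t > v` the set is empty.

Proof of `card_sqzero`: `x` is determined by its range `S` (dimension `R`) and the induced map
`V / S → S` (as `S ≤ ker x`), number `q ^ ((m - R) * R)`. If `R > m` the set is empty.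

Proof of `card_sub_above`: `A` is determined by its image `A.map N.mkQ` in `V / N`, of dimension
`dim V - s - dim N`, so codimension `s` in `V / N`; use `card_subspaces` with
`k = dim V - dim N - s`: `2 ^ k * q ^ (k * s)`. If `s > dim V - dim N` the set is empty (then
`finrank A + s = dim V` contradicts `N ≤ A`).
-/

namespace H77AA

open Module

variable {K : Type*} [Field K] [Finite K] {V : Type*} [AddCommGroup V] [Module K V]
  [FiniteDimensional K V] {W : Type*} [AddCommGroup W] [Module K W] [FiniteDimensional K W]

theorem maps_card_fib {α β : Type*} [Finite α] [Finite β] (f : α → β) (c : ℕ)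
    (h : ∀ b, Nat.card {a // f a = b} ≤ c) : Nat.card α ≤ Nat.card β * c := by
  classical
  have := Fintype.ofFinite β
  rw [← Nat.card_congr (Equiv.sigmaFiberEquiv f), Nat.card_sigma]
  refine (Finset.sum_le_sum fun b _ => h b).trans ?_
  rw [Finset.sum_const, Finset.card_univ, smul_eq_mul, Nat.card_eq_fintype_card]

theorem card_maps_rank (t : ℕ) :
    Nat.card {f : V →ₗ[K] W // rk f = t} ≤
      2 ^ t * Nat.card K ^ (t * (finrank K V + finrank K W - t)) := by
  have : Finite (V →ₗ[K] W) := finite_hom
  have : Finite (Submodule K W) := finite_sub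
  by_cases ht : t ≤ finrank K W
  · have h := maps_card_fib
      (fun f : {f : V →ₗ[K] W // rk f = t} =>
        (⟨LinearMap.range f.1, f.2⟩ : {S : Submodule K W // finrank K S = t}))
      (Nat.card K ^ (finrank K V * t)) ?_
    · refine h.trans ((Nat.mul_le_mul_right _ (card_subspaces t)).trans (le_of_eq ?_))
      rw [mul_assoc, ← pow_add]
      congr 2
      have e : finrank K V + finrank K W - t = finrank K V + (finrank K W - t) := by omega
      rw [e]
      ring
    · rintro ⟨S, hS⟩
      have : Finite (V →ₗ[K] S) := finite_hom
      have hmem : ∀ a : {a : {f : V →ₗ[K] W // rk f = t} //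
          (⟨LinearMap.range a.1, a.2⟩ : {S : Submodule K W // finrank K S = t}) = ⟨S, hS⟩},
          ∀ v, a.1.1 v ∈ S := by
        intro a v
        have h1 : LinearMap.range a.1.1 = S := congrArg Subtype.val a.2
        exact h1.le (LinearMap.mem_range_self _ v)
      have h2 := Nat.card_le_card_of_injective
        (fun a : {a : {f : V →ₗ[K] W // rk f = t} //
          (⟨LinearMap.range a.1, a.2⟩ : {S : Submodule K W // finrank K S = t}) = ⟨S, hS⟩} =>
          LinearMap.codRestrict S a.1.1 (hmem a)) ?_
      · refine h2.trans (le_of_eq ?_)
        rw [natCard_hom, hS]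
      · intro a b hab
        apply Subtype.ext
        apply Subtype.ext
        ext v
        have h3 := congrArg (fun g : V →ₗ[K] S => (g v : W)) hab
        exact h3
  · have : IsEmpty {f : V →ₗ[K] W // rk f = t} := by
      constructor
      rintro ⟨f, hf⟩
      have : rk f ≤ finrank K W := Submodule.finrank_le _
      omega
    rw [Nat.card_of_isEmpty]
    exact Nat.zero_le _

theorem card_sqzero (R : ℕ) :
    Nat.card {x : Module.End K V // x * x = 0 ∧ rk x = R} ≤
      2 ^ R * Nat.card K ^ (2 * R * (finrank K V - R)) := by
  have : Finite (Module.End K V) := finite_hom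
  have : Finite (Submodule K V) := finite_sub
  have h := maps_card_fib
      (fun f : {x : Module.End K V // x * x = 0 ∧ rk x = R} =>
        (⟨LinearMap.range f.1, f.2.2⟩ : {S : Submodule K V // finrank K S = R}))
      (Nat.card K ^ ((finrank K V - R) * R)) ?_
  · refine h.trans ((Nat.mul_le_mul_right _ (card_subspaces R)).trans (le_of_eq ?_))
    rw [mul_assoc, ← pow_add]
    congr 2
    ring
  · rintro ⟨S, hS⟩
    have : Finite ((V ⧸ S) →ₗ[K] S) := finite_hom
    have hr : ∀ a : {a : {x : Module.End K V // x * x = 0 ∧ rk x = R} //
          (⟨LinearMap.range a.1, a.2.2⟩ : {S : Submodule K V // finrank K S = R}) = ⟨S, hS⟩},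
          LinearMap.range a.1.1 = S := fun a => congrArg Subtype.val a.2
    have hmem : ∀ a : {a : {x : Module.End K V // x * x = 0 ∧ rk x = R} //
          (⟨LinearMap.range a.1, a.2.2⟩ : {S : Submodule K V // finrank K S = R}) = ⟨S, hS⟩},
          ∀ v, a.1.1 v ∈ S := by
      intro a v
      exact (hr a).le (LinearMap.mem_range_self _ v)
    have hker : ∀ a : {a : {x : Module.End K V // x * x = 0 ∧ rk x = R} //
          (⟨LinearMap.range a.1, a.2.2⟩ : {S : Submodule K V // finrank K S = R}) = ⟨S, hS⟩},
          S ≤ LinearMap.ker (LinearMap.codRestrict S a.1.1 (hmem a)) := by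
      intro a v hv
      obtain ⟨w, rfl⟩ := (hr a).ge hv
      rw [LinearMap.mem_ker]
      apply Subtype.ext
      have h1 := a.1.2.1
      exact congrArg (fun g : Module.End K V => g w) h1
    have h2 := Nat.card_le_card_of_injective
      (fun a : {a : {x : Module.End K V // x * x = 0 ∧ rk x = R} //
          (⟨LinearMap.range a.1, a.2.2⟩ : {S : Submodule K V // finrank K S = R}) = ⟨S, hS⟩} =>
        S.liftQ (LinearMap.codRestrict S a.1.1 (hmem a)) (hker a)) ?_
    · refine h2.trans (le_of_eq ?_)
      rw [natCard_hom, hS]
      have h3 := Submodule.finrank_quotient_add_finrank S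
      have e : finrank K (V ⧸ S) = finrank K V - R := by omega
      rw [e]
    · intro a b hab
      apply Subtype.ext
      apply Subtype.ext
      ext v
      have h3 := congrArg (fun g : (V ⧸ S) →ₗ[K] S => (g (S.mkQ v) : V)) hab
      exact h3

theorem card_sub_above (N : Submodule K V) (s : ℕ) :
    Nat.card {A : Submodule K V // N ≤ A ∧ finrank K A + s = finrank K V} ≤
      2 ^ finrank K V * Nat.card K ^ (s * (finrank K V - finrank K N - s)) := by
  have : Finite (Submodule K (V ⧸ N)) := finite_sub
  by_cases hs : finrank K N + s ≤ finrank K V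
  · have hQ := Submodule.finrank_quotient_add_finrank N
    have hfin : ∀ A : {A : Submodule K V // N ≤ A ∧ finrank K A + s = finrank K V},
        finrank K (A.1.map N.mkQ) = finrank K V - finrank K N - s := by
      intro A
      have h1 := LinearMap.finrank_range_add_finrank_ker (N.mkQ.domRestrict A.1)
      have h2 : LinearMap.range (N.mkQ.domRestrict A.1) = A.1.map N.mkQ :=
        LinearMap.range_domRestrict _ _
      have h3 : finrank K (LinearMap.ker (N.mkQ.domRestrict A.1)) = finrank K N := by
        have e : LinearMap.ker (N.mkQ.domRestrict A.1) = N.comap A.1.subtype := by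
          ext v
          simp [LinearMap.mem_ker]
        rw [e]
        exact LinearEquiv.finrank_eq (Submodule.comapSubtypeEquivOfLe A.2.1)
      rw [h2, h3] at h1
      have := A.2.2
      omega
    have h2 := Nat.card_le_card_of_injective
      (fun A : {A : Submodule K V // N ≤ A ∧ finrank K A + s = finrank K V} =>
        (⟨A.1.map N.mkQ, hfin A⟩ :
          {S : Submodule K (V ⧸ N) // finrank K S = finrank K V - finrank K N - s})) ?_
    · refine h2.trans ((card_subspaces _).trans ?_)
      have e1 : finrank K (V ⧸ N) - (finrank K V - finrank K N - s) = s := by omega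
      rw [e1, mul_comm s]
      exact Nat.mul_le_mul_right _ (Nat.pow_le_pow_right (by norm_num) (by omega))
    · intro A B hAB
      apply Subtype.ext
      have h3 : A.1.map N.mkQ = B.1.map N.mkQ := congrArg Subtype.val hAB
      have h4 := congrArg (Submodule.comap N.mkQ) h3
      rw [Submodule.comap_map_mkQ, Submodule.comap_map_mkQ, sup_eq_right.2 A.2.1,
        sup_eq_right.2 B.2.1] at h4
      exact h4
  · have : IsEmpty {A : Submodule K V // N ≤ A ∧ finrank K A + s = finrank K V} := by
      constructor
      rintro ⟨A, hA1, hA2⟩
      have := Submodule.finrank_mono hA1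
      omega
    rw [Nat.card_of_isEmpty]
    exact Nat.zero_le _

end H77AA
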