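import Pool.Agent.Helper77.AA.Defs

/-!
# Block AA-PEN : the commutant of the standard pencil, and indecomposability

Proof of `pencil_comm`. Write `H` in blocks `A, B; C, D` (for the index `Fin a ⊕ Fin (a + 1)`).
`H * nilM Y = nilM Y * H` says `B Y = 0`, `D Y = Y A`, `Y B = 0`. With `Y = E1, E2`: every unit
vector of the space of dimension `a + 1` is in the range of `E1` or `E2` (as `0 < a`), so `B = 0`.
`D E1 = E1 A` and `D E2 = E2 A` give `D i j = A i j`, `D (a) j = 0` for `i, j < a`, and
`D (i+1) (j+1) = A i j`, `D 0 (j+1) = 0`. So `A (i+1) (j+1) = A i j`, the first row of `A` is zero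
off the diagonal and so is the last one; hence `A` and `D` are the same scalar `c`.

Proof of `indec_bar`. Let `Ab` be the algebraic closure, `A ⊕ B` a decomposition into invariant
subspaces, `e` the projection to `A` along `B`; it commutes with all `bar ρ g`. Its matrix `H`
satisfies `H * H = H` and commutes with `P (nilM (Y i)) P⁻¹` (mapped to `Ab`), so `P⁻¹ H P` is of
the form `c + nilM N`; being idempotent (`nilM N * nilM N' = 0`) it is `0` or `1` (compare the
diagonal blocks, `2 c N = c ^ 2 - c + ...`, `CharP K 2`). Hence `A = ⊥` or `B = ⊥`.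
-/

namespace H77AA

open Module H77CI H77GJ

private lemma nilM_ap {K : Type*} [Field K] {a : ℕ} (Y : Matrix (Fin (a + 1)) (Fin a) K)
    (i j : Fin a ⊕ Fin (a + 1)) :
    nilM Y (finSumFinEquiv i) (finSumFinEquiv j) = Matrix.fromBlocks 0 0 Y 0 i j := by
  unfold nilM
  rw [Matrix.reindex_apply, Matrix.submatrix_apply, Equiv.symm_apply_apply,
    Equiv.symm_apply_apply]

private lemma ext_sum {K : Type*} {a : ℕ}
    {M N : Matrix (Fin (a + (a + 1))) (Fin (a + (a + 1))) K}
    (h : ∀ i j : Fin a ⊕ Fin (a + 1),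
      M (finSumFinEquiv i) (finSumFinEquiv j) = N (finSumFinEquiv i) (finSumFinEquiv j)) :
    M = N := by
  ext i j
  obtain ⟨i, rfl⟩ := (finSumFinEquiv (m := a) (n := a + 1)).surjective i
  obtain ⟨j, rfl⟩ := (finSumFinEquiv (m := a) (n := a + 1)).surjective j
  exact h i j

theorem nilM_mul_nilM {K : Type*} [Field K] {a : ℕ} (Y Z : Matrix (Fin (a + 1)) (Fin a) K) :
    nilM Y * nilM Z = 0 := by
  unfold nilM
  rw [Matrix.reindex_apply, Matrix.reindex_apply, Matrix.submatrix_mul_equiv,
    Matrix.fromBlocks_multiply]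
  simp

theorem nilM_add {K : Type*} [Field K] {a : ℕ} (Y Z : Matrix (Fin (a + 1)) (Fin a) K) :
    nilM (Y + Z) = nilM Y + nilM Z := by
  refine ext_sum fun i j => ?_
  rw [Matrix.add_apply, nilM_ap, nilM_ap, nilM_ap]
  rcases i with i | i <;> rcases j with j | j <;> simp

theorem nilM_smul {K : Type*} [Field K] {a : ℕ} (c : K) (Y : Matrix (Fin (a + 1)) (Fin a) K) :
    nilM (c • Y) = c • nilM Y := by
  refine ext_sum fun i j => ?_
  rw [Matrix.smul_apply, nilM_ap, nilM_ap]
  rcases i with i | i <;> rcases j with j | j <;> simp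

theorem nilM_injective {K : Type*} [Field K] {a : ℕ} :
    Function.Injective (nilM : Matrix (Fin (a + 1)) (Fin a) K → _) := by
  intro Y Z h
  ext i j
  have h1 := congrFun (congrFun h (finSumFinEquiv (Sum.inr i))) (finSumFinEquiv (Sum.inl j))
  rw [nilM_ap, nilM_ap] at h1
  simpa using h1

theorem nilM_map {K L : Type*} [Field K] [Field L] (φ : K →+* L) {a : ℕ}
    (Y : Matrix (Fin (a + 1)) (Fin a) K) : (nilM Y).map φ = nilM (Y.map φ) := by
  refine ext_sum fun i j => ?_
  rw [Matrix.map_apply, nilM_ap, nilM_ap]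
  rcases i with i | i <;> rcases j with j | j <;> simp

private lemma E1_map {K L : Type*} [Field K] [Field L] (φ : K →+* L) (a : ℕ) :
    (E1 K a).map φ = E1 L a := by
  ext i j
  simp only [Matrix.map_apply, E1, Matrix.of_apply]
  split_ifs <;> simp

private lemma E2_map {K L : Type*} [Field K] [Field L] (φ : K →+* L) (a : ℕ) :
    (E2 K a).map φ = E2 L a := by
  ext i j
  simp only [Matrix.map_apply, E2, Matrix.of_apply]
  split_ifs <;> simp

/-- the scalar matrices are the only solutions of `D = D` shifted along the diagonal -/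
private lemma toep {K : Type*} [Field K] {a : ℕ} (f : ℕ → ℕ → K)
    (h1 : ∀ m n, m < a → n < a → f (m + 1) (n + 1) = f m n)
    (h2 : ∀ n, n < a → f a n = 0) (h3 : ∀ n, n < a → f 0 (n + 1) = 0) :
    ∀ m n, m ≤ a → n ≤ a → f m n = if m = n then f 0 0 else 0 := by
  have up : ∀ m n, n ≤ a → m < n → f m n = 0 := by
    intro m
    induction m with
    | zero =>
      intro n hn hmn
      obtain ⟨n', rfl⟩ : ∃ n', n = n' + 1 := ⟨n - 1, by omega⟩
      exact h3 n' (by omega)
    | succ m ih =>
      intro n hn hmn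
      obtain ⟨n', rfl⟩ : ∃ n', n = n' + 1 := ⟨n - 1, by omega⟩
      rw [h1 m n' (by omega) (by omega)]
      exact ih n' (by omega) (by omega)
  have lo : ∀ t m n, m + t = a → n < m → f m n = 0 := by
    intro t
    induction t with
    | zero =>
      intro m n hm hn
      have : m = a := by omega
      subst this
      exact h2 n hn
    | succ t ih =>
      intro m n hm hn
      rw [← h1 m n (by omega) (by omega)]
      exact ih (m + 1) (n + 1) (by omega) (by omega)
  have di : ∀ m, m ≤ a → f m m = f 0 0 := by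
    intro m
    induction m with
    | zero => intro _; rfl
    | succ m ih =>
      intro hm
      rw [h1 m m (by omega) (by omega)]
      exact ih (by omega)
  intro m n hm hn
  rcases lt_trichotomy m n with h | h | h
  · rw [up m n hn h, if_neg (by omega)]
  · subst h
    rw [di m hm, if_pos rfl]
  · rw [lo (a - m) m n (by omega) h, if_neg (by omega)]

theorem pencil_comm {K : Type*} [Field K] {a : ℕ} (ha : 0 < a)
    (H : Matrix (Fin (a + (a + 1))) (Fin (a + (a + 1))) K)
    (h1 : H * nilM (E1 K a) = nilM (E1 K a) * H) (h2 : H * nilM (E2 K a) = nilM (E2 K a) * H) :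
    ∃ (c : K) (N : Matrix (Fin (a + 1)) (Fin a) K), H = c • 1 + nilM N := by
  obtain ⟨A, B, C, D, hH⟩ : ∃ (A : Matrix (Fin a) (Fin a) K) (B : Matrix (Fin a) (Fin (a + 1)) K)
      (C : Matrix (Fin (a + 1)) (Fin a) K) (D : Matrix (Fin (a + 1)) (Fin (a + 1)) K),
      H = Matrix.reindex finSumFinEquiv finSumFinEquiv (Matrix.fromBlocks A B C D) := by
    refine ⟨(H.submatrix finSumFinEquiv finSumFinEquiv).toBlocks₁₁,
      (H.submatrix finSumFinEquiv finSumFinEquiv).toBlocks₁₂,
      (H.submatrix finSumFinEquiv finSumFinEquiv).toBlocks₂₁,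
      (H.submatrix finSumFinEquiv finSumFinEquiv).toBlocks₂₂, ?_⟩
    rw [Matrix.fromBlocks_toBlocks (H.submatrix finSumFinEquiv finSumFinEquiv)]
    ext i j
    simp
  have key : ∀ Y : Matrix (Fin (a + 1)) (Fin a) K, H * nilM Y = nilM Y * H →
      B * Y = 0 ∧ D * Y = Y * A := by
    intro Y hY
    rw [hH] at hY
    unfold nilM at hY
    rw [Matrix.reindex_apply, Matrix.reindex_apply, Matrix.submatrix_mul_equiv,
      Matrix.submatrix_mul_equiv, Matrix.fromBlocks_multiply, Matrix.fromBlocks_multiply] at hY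
    have h3 := (Matrix.reindex (finSumFinEquiv (m := a) (n := a + 1))
      (finSumFinEquiv (m := a) (n := a + 1))).injective hY
    have h4 := Matrix.fromBlocks_inj.1 h3
    simp only [Matrix.mul_zero, Matrix.zero_mul, add_zero, zero_add] at h4
    exact ⟨h4.1, h4.2.2.1⟩
  obtain ⟨hB1, hD1⟩ := key _ h1
  obtain ⟨hB2, hD2⟩ := key _ h2
  have mulE1 : ∀ {m : Type} [Fintype m] (X : Matrix m (Fin (a + 1)) K) (i : m) (j : Fin a),
      (X * E1 K a) i j = X i j.castSucc := by
    intro m _ X i j
    rw [Matrix.mul_apply, Finset.sum_eq_single j.castSucc]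
    · simp [E1]
    · intro b _ hb
      simp [E1, hb]
    · intro h; exact absurd (Finset.mem_univ _) h
  have mulE2 : ∀ {m : Type} [Fintype m] (X : Matrix m (Fin (a + 1)) K) (i : m) (j : Fin a),
      (X * E2 K a) i j = X i j.succ := by
    intro m _ X i j
    rw [Matrix.mul_apply, Finset.sum_eq_single j.succ]
    · simp [E2]
    · intro b _ hb
      simp [E2, hb]
    · intro h; exact absurd (Finset.mem_univ _) h
  have E1mul : ∀ (i j : Fin a), (E1 K a * A) i.castSucc j = A i j := by
    intro i j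
    rw [Matrix.mul_apply, Finset.sum_eq_single i]
    · simp [E1]
    · intro b _ hb
      have : ¬ i = b := fun h => hb h.symm
      simp [E1, this]
    · intro h; exact absurd (Finset.mem_univ _) h
  have E1mul' : ∀ (j : Fin a), (E1 K a * A) (Fin.last a) j = 0 := by
    intro j
    rw [Matrix.mul_apply]
    refine Finset.sum_eq_zero fun b _ => ?_
    have : ¬ Fin.last a = b.castSucc := fun h => (Fin.castSucc_lt_last b).ne h.symm
    simp [E1, this]
  have E2mul : ∀ (i j : Fin a), (E2 K a * A) i.succ j = A i j := by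
    intro i j
    rw [Matrix.mul_apply, Finset.sum_eq_single i]
    · simp [E2]
    · intro b _ hb
      have : ¬ i = b := fun h => hb h.symm
      simp [E2, this]
    · intro h; exact absurd (Finset.mem_univ _) h
  have E2mul' : ∀ (j : Fin a), (E2 K a * A) 0 j = 0 := by
    intro j
    rw [Matrix.mul_apply]
    refine Finset.sum_eq_zero fun b _ => ?_
    have : ¬ (0 : Fin (a + 1)) = b.succ := fun h => Fin.succ_ne_zero b h.symm
    simp [E2, this]
  have hB : B = 0 := by
    ext i j
    rcases Fin.eq_castSucc_or_eq_last j with ⟨j', rfl⟩ | rfl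
    · rw [← mulE1 B i j', hB1]
      rfl
    · have h5 : Fin.last a = (⟨a - 1, by omega⟩ : Fin a).succ := by
        ext
        simp
        omega
      rw [h5, ← mulE2 B i _, hB2]
      rfl
  have dA1 : ∀ i j : Fin a, D i.castSucc j.castSucc = A i j := by
    intro i j
    rw [← mulE1 D _ j, hD1, E1mul]
  have dl : ∀ j : Fin a, D (Fin.last a) j.castSucc = 0 := by
    intro j
    rw [← mulE1 D _ j, hD1, E1mul']
  have dA2 : ∀ i j : Fin a, D i.succ j.succ = A i j := by
    intro i j
    rw [← mulE2 D _ j, hD2, E2mul]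
  have df : ∀ j : Fin a, D 0 j.succ = 0 := by
    intro j
    rw [← mulE2 D _ j, hD2, E2mul']
  let f : ℕ → ℕ → K := fun m n =>
    if h : m < a + 1 ∧ n < a + 1 then D ⟨m, h.1⟩ ⟨n, h.2⟩ else 0
  have hf : ∀ m n (hm : m < a + 1) (hn : n < a + 1), f m n = D ⟨m, hm⟩ ⟨n, hn⟩ := by
    intro m n hm hn
    simp only [f]
    rw [dif_pos ⟨hm, hn⟩]
  have ht := toep (a := a) f (fun m n hm hn => by
      rw [hf _ _ (by omega) (by omega), hf _ _ (by omega) (by omega)]
      exact (dA2 ⟨m, hm⟩ ⟨n, hn⟩).trans (dA1 ⟨m, hm⟩ ⟨n, hn⟩).symm)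
    (fun n hn => by
      rw [hf _ _ (by omega) (by omega)]
      exact dl ⟨n, hn⟩)
    (fun n hn => by
      rw [hf _ _ (by omega) (by omega)]
      exact df ⟨n, hn⟩)
  have hDc : D = (f 0 0) • (1 : Matrix (Fin (a + 1)) (Fin (a + 1)) K) := by
    ext i j
    have h5 := ht i j (by omega) (by omega)
    rw [hf _ _ i.2 j.2] at h5
    rw [Matrix.smul_apply, Matrix.one_apply, smul_eq_mul]
    refine h5.trans ?_
    by_cases hij : i = j
    · subst hij
      simp
    · have : ¬ (i : ℕ) = j := fun h => hij (Fin.ext h)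
      simp [hij, this]
  have hAc : A = (f 0 0) • (1 : Matrix (Fin a) (Fin a) K) := by
    ext i j
    rw [← dA1, hDc, Matrix.smul_apply, Matrix.smul_apply, Matrix.one_apply, Matrix.one_apply]
    simp
  refine ⟨f 0 0, C, ?_⟩
  rw [hH, hB, hAc, hDc]
  refine ext_sum fun i j => ?_
  rw [Matrix.add_apply, nilM_ap, Matrix.smul_apply, Matrix.reindex_apply,
    Matrix.submatrix_apply, Equiv.symm_apply_apply, Equiv.symm_apply_apply]
  have h6 : (1 : Matrix (Fin (a + (a + 1))) (Fin (a + (a + 1))) K) (finSumFinEquiv i)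
      (finSumFinEquiv j) = (1 : Matrix (Fin a ⊕ Fin (a + 1)) (Fin a ⊕ Fin (a + 1)) K) i j := by
    by_cases hij : i = j
    · subst hij
      rw [Matrix.one_apply_eq, Matrix.one_apply_eq]
    · rw [Matrix.one_apply_ne hij, Matrix.one_apply_ne
        (fun h => hij (finSumFinEquiv.injective h))]
  rw [h6]
  rcases i with i | i <;> rcases j with j | j <;>
    simp [Matrix.one_apply]

/-- the projection along an invariant complement commutes with the invariant maps -/
private lemma proj_comm {F V : Type*} [Field F] [AddCommGroup V] [Module F V]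
    {A B : Submodule F V} (h : IsCompl A B) (f : V →ₗ[F] V) (hA : ∀ x ∈ A, f x ∈ A)
    (hB : ∀ x ∈ B, f x ∈ B) (v : V) :
    A.subtype (A.projectionOnto B h (f v)) = f (A.subtype (A.projectionOnto B h v)) := by
  obtain ⟨x, hx, y, hy, rfl⟩ : ∃ x ∈ A, ∃ y ∈ B, x + y = v :=
    Submodule.mem_sup.1 (by rw [h.sup_eq_top]; exact Submodule.mem_top)
  have h1 : A.projectionOnto B h (x + y) = ⟨x, hx⟩ := by
    rw [map_add, Submodule.projectionOnto_apply_of_mem_right h hy, add_zero]
    exact Submodule.projectionOnto_apply_left h ⟨x, hx⟩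
  have h2 : A.projectionOnto B h (f (x + y)) = ⟨f x, hA x hx⟩ := by
    rw [map_add, map_add, Submodule.projectionOnto_apply_of_mem_right h (hB y hy), add_zero]
    exact Submodule.projectionOnto_apply_left h ⟨f x, hA x hx⟩
  rw [h1, h2]
  rfl

theorem indec_bar {K : Type} [Field K] [CharP K 2] {a n : ℕ} (ha : 0 < a)
    (ρ : MRep (n + 2) (a + (a + 1)) K) (P : GL (Fin (a + (a + 1))) K)
    (Y : Fin (n + 2) → Matrix (Fin (a + 1)) (Fin a) K) (h0 : Y 0 = E1 K a) (h1 : Y 1 = E2 K a)
    (hρ : ∀ i, ρ (gen i) = 1 + (P : Matrix _ _ K) * nilM (Y i) *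
      ((P⁻¹ : GL (Fin (a + (a + 1))) K) : Matrix _ _ K)) : Indec (bar ρ) := by
  intro A B hA hB hAB
  set φ : K →+* AlgebraicClosure K := algebraMap K (AlgebraicClosure K) with hφ
  set Pb : Matrix (Fin (a + (a + 1))) (Fin (a + (a + 1))) (AlgebraicClosure K) :=
    (P : Matrix _ _ K).map φ with hPb
  set Qb : Matrix (Fin (a + (a + 1))) (Fin (a + (a + 1))) (AlgebraicClosure K) :=
    ((P⁻¹ : GL (Fin (a + (a + 1))) K) : Matrix _ _ K).map φ with hQb
  have hPQ : Pb * Qb = 1 := by
    rw [hPb, hQb, ← Matrix.map_mul, ← Units.val_mul, mul_inv_cancel, Units.val_one,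
      Matrix.map_one _ (map_zero _) (map_one _)]
  have hQP : Qb * Pb = 1 := by
    rw [hPb, hQb, ← Matrix.map_mul, ← Units.val_mul, inv_mul_cancel, Units.val_one,
      Matrix.map_one _ (map_zero _) (map_one _)]
  have h2 : (2 : AlgebraicClosure K) = 0 := by
    have h3 : (2 : K) = 0 := CharTwo.two_eq_zero
    have h4 := congrArg φ h3
    rw [map_ofNat, map_zero] at h4
    exact h4
  set e : (Fin (a + (a + 1)) → AlgebraicClosure K) →ₗ[AlgebraicClosure K]
      (Fin (a + (a + 1)) → AlgebraicClosure K) :=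
    A.subtype ∘ₗ A.projectionOnto B hAB with he
  have hee : e ∘ₗ e = e := by
    refine LinearMap.ext fun v => ?_
    simp only [he, LinearMap.comp_apply, Submodule.subtype_apply]
    rw [Submodule.projectionOnto_apply_left hAB]
  set H := LinearMap.toMatrix' e with hH
  have hHH : H * H = H := by
    rw [hH, ← LinearMap.toMatrix'_comp, hee]
  have hcomm : ∀ g, H * (ρ g).map φ = (ρ g).map φ * H := by
    intro g
    have h3 : e ∘ₗ bar ρ g = bar ρ g ∘ₗ e := by
      refine LinearMap.ext fun v => ?_
      exact proj_comm hAB (bar ρ g) (hA g) (hB g) v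
    have h4 := congrArg LinearMap.toMatrix' h3
    rw [LinearMap.toMatrix'_comp, LinearMap.toMatrix'_comp, bar_apply,
      LinearMap.toMatrix'_toLin'] at h4
    exact h4
  set H' := Qb * H * Pb with hH'
  have hc : ∀ i, H' * nilM ((Y i).map φ) = nilM ((Y i).map φ) * H' := by
    intro i
    have h3 := hcomm (gen i)
    rw [hρ i, Matrix.map_add _ (map_add φ), Matrix.map_one _ (map_zero _) (map_one _),
      Matrix.map_mul, Matrix.map_mul, nilM_map, ← hPb, ← hQb, mul_add, add_mul, mul_one,
      one_mul] at h3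
    have h4 := add_left_cancel h3
    calc H' * nilM ((Y i).map φ) = Qb * (H * (Pb * nilM ((Y i).map φ) * Qb)) * Pb := by
          rw [hH']
          simp only [Matrix.mul_assoc, hQP, Matrix.mul_one]
      _ = Qb * ((Pb * nilM ((Y i).map φ) * Qb) * H) * Pb := by rw [h4]
      _ = nilM ((Y i).map φ) * H' := by
          rw [hH']
          simp only [← Matrix.mul_assoc, hQP, Matrix.one_mul]
  have hc0 := hc 0
  have hc1 := hc 1
  rw [h0, E1_map] at hc0
  rw [h1, E2_map] at hc1
  obtain ⟨c, N, hN⟩ := pencil_comm ha H' hc0 hc1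
  have hH'H' : H' * H' = H' := by
    calc H' * H' = Qb * (H * (Pb * Qb) * H) * Pb := by
          rw [hH']
          simp only [Matrix.mul_assoc]
      _ = H' := by rw [hPQ, Matrix.mul_one, hHH, hH']
  have hsq : (c * c) • (1 : Matrix (Fin (a + (a + 1))) (Fin (a + (a + 1))) (AlgebraicClosure K)) =
      c • 1 + nilM N := by
    rw [hN] at hH'H'
    rw [← hH'H', add_mul, mul_add, mul_add, nilM_mul_nilM, add_zero, Matrix.smul_mul,
      Matrix.smul_mul, Matrix.mul_smul, Matrix.mul_smul, Matrix.one_mul, Matrix.one_mul,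
      Matrix.mul_one, smul_smul, add_assoc, ← two_smul (AlgebraicClosure K) (c • nilM N), h2,
      zero_smul, add_zero]
  have hcc : c * c = c := by
    have h3 := congrFun (congrFun hsq (finSumFinEquiv (Sum.inl ⟨0, ha⟩)))
      (finSumFinEquiv (Sum.inl ⟨0, ha⟩))
    rw [Matrix.add_apply, nilM_ap, Matrix.smul_apply, Matrix.smul_apply, Matrix.one_apply_eq] at h3
    simpa using h3
  have hN0 : nilM N = 0 := by
    rw [hcc] at hsq
    exact (left_eq_add.1 hsq)
  rw [hN0, add_zero] at hN
  have hHval : H = c • 1 := by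
    calc H = (Pb * Qb) * H * (Pb * Qb) := by rw [hPQ, Matrix.one_mul, Matrix.mul_one]
      _ = Pb * H' * Qb := by
          rw [hH']
          simp only [Matrix.mul_assoc]
      _ = c • 1 := by
          rw [hN, Matrix.mul_smul, Matrix.smul_mul, Matrix.mul_one, hPQ]
  have hev : ∀ v, e v = c • v := by
    intro v
    have h3 : e = Matrix.toLin' H := by rw [hH, Matrix.toLin'_toMatrix']
    rw [h3, hHval, Matrix.toLin'_apply, Matrix.smul_mulVec, Matrix.one_mulVec]
  have hc01 : c = 0 ∨ c = 1 := by
    have h3 : c * (c - 1) = 0 := by rw [mul_sub, hcc, mul_one, sub_self]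
    rcases mul_eq_zero.1 h3 with h4 | h4
    · exact Or.inl h4
    · exact Or.inr (sub_eq_zero.1 h4)
  rcases hc01 with rfl | rfl
  · left
    rw [Submodule.eq_bot_iff]
    intro x hx
    have h3 := hev x
    rw [zero_smul] at h3
    have h4 : e x = x := by
      simp only [he, LinearMap.comp_apply, Submodule.subtype_apply]
      rw [Submodule.projectionOnto_apply_left hAB ⟨x, hx⟩]
    rw [← h4, h3]
  · right
    rw [Submodule.eq_bot_iff]
    intro x hx
    have h3 := hev x
    rw [one_smul] at h3
    have h4 : e x = 0 := by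
      simp only [he, LinearMap.comp_apply, Submodule.subtype_apply]
      rw [Submodule.projectionOnto_apply_of_mem_right hAB hx]
      rfl
    rw [← h3, h4]

end H77AA
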