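import Pool.Agent.Helper77.AA.Basic

/-!
# Block AA-SUB : number of subspaces of given dimension

Proof. `card_linearIndependent` (Mathlib, LinearAlgebra/Matrix/GeneralLinearGroup/Card) counts the
linearly independent `k`-tuples of a space of dimension `n`: the product of `q ^ n - q ^ i`, at most
`q ^ (n * k)`. The map `s` to `span (range s)` from independent `k`-tuples of `V` to subspaces of
dimension `k`; over every `S` the fibre contains the independent `k`-tuples of `S`, whose number is
the product over `i < k` of `q ^ k - q ^ i`, which is at least `q ^ (k * k) / 2 ^ k`, because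
`q ^ i ≤ q ^ (k - 1) ≤ q ^ k / 2`. For `k > n` there is no subspace.
-/

namespace H77AA

open Module

theorem card_subspaces {K : Type*} [Field K] [Finite K] {V : Type*} [AddCommGroup V] [Module K V]
    [FiniteDimensional K V] (k : ℕ) :
    Nat.card {S : Submodule K V // finrank K S = k} ≤
      2 ^ k * Nat.card K ^ (k * (finrank K V - k)) := by
  classical
  have : Fintype K := Fintype.ofFinite K
  have hV : Finite V := Module.finite_of_finite K
  have hS : Finite (Submodule K V) := finite_sub
  have : Fintype {S : Submodule K V // finrank K S = k} := Fintype.ofFinite _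
  set q : ℕ := Fintype.card K with hq
  have hqK : Nat.card K = q := Nat.card_eq_fintype_card
  rw [hqK]
  have hq2 : 2 ≤ q := Fintype.one_lt_card
  set n : ℕ := finrank K V with hn
  rcases Nat.lt_or_ge n k with hk | hk
  · have : IsEmpty {S : Submodule K V // finrank K S = k} := by
      refine ⟨fun S => ?_⟩
      have h1 := Submodule.finrank_le S.1
      rw [S.2] at h1
      omega
    simp
  · let LS : {S : Submodule K V // finrank K S = k} → Type _ := fun S =>
      {s : Fin k → S.1 // LinearIndependent K s}
    have hfin : ∀ S, Finite (LS S) := fun S => Subtype.finite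
    let f : (Σ S : {S : Submodule K V // finrank K S = k}, LS S) →
        {s : Fin k → V // LinearIndependent K s} := fun x =>
      ⟨fun i => (x.2.1 i : V), x.2.2.map' (Submodule.subtype x.1.1) (Submodule.ker_subtype _)⟩
    have hspan : ∀ x : (Σ S : {S : Submodule K V // finrank K S = k}, LS S),
        Submodule.span K (Set.range (f x).1) = x.1.1 := by
      intro x
      refine Submodule.eq_of_le_of_finrank_eq ?_ ?_
      · rw [Submodule.span_le]
        rintro _ ⟨i, rfl⟩
        exact (x.2.1 i).2
      · rw [finrank_span_eq_card (f x).2, Fintype.card_fin, x.1.2]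
    have hf : Function.Injective f := by
      rintro ⟨S, s⟩ ⟨S', s'⟩ h
      have h1 : S = S' := by
        apply Subtype.ext
        rw [← hspan ⟨S, s⟩, ← hspan ⟨S', s'⟩, h]
      subst h1
      have h2 : s = s' := by
        apply Subtype.ext
        funext i
        apply Subtype.ext
        have h3 := congrArg Subtype.val h
        exact congrFun h3 i
      rw [h2]
    have h1 := Nat.card_le_card_of_injective f hf
    have h2 : Nat.card (Σ S : {S : Submodule K V // finrank K S = k}, LS S) =
        Nat.card {S : Submodule K V // finrank K S = k} * ∏ i : Fin k, (q ^ k - q ^ (i : ℕ)) := by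
      rw [Nat.card_sigma]
      have h3 : ∀ S : {S : Submodule K V // finrank K S = k},
          Nat.card (LS S) = ∏ i : Fin k, (q ^ k - q ^ (i : ℕ)) := by
        intro S
        have h4 := card_linearIndependent (K := K) (V := S.1) (k := k) (by rw [S.2])
        rw [S.2] at h4
        exact h4
      rw [Finset.sum_congr rfl (fun S _ => h3 S), Finset.sum_const, Finset.card_univ, smul_eq_mul,
        Nat.card_eq_fintype_card]
    rw [h2, card_linearIndependent (K := K) (V := V) hk] at h1
    have h3 : ∏ i : Fin k, (q ^ n - q ^ (i : ℕ)) ≤ q ^ (n * k) := by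
      calc ∏ i : Fin k, (q ^ n - q ^ (i : ℕ)) ≤ ∏ _i : Fin k, q ^ n :=
            Finset.prod_le_prod' (fun i _ => Nat.sub_le _ _)
        _ = q ^ (n * k) := by
            rw [Finset.prod_const, Finset.card_univ, Fintype.card_fin, ← pow_mul]
    have h4 : q ^ (k * k) ≤ 2 ^ k * ∏ i : Fin k, (q ^ k - q ^ (i : ℕ)) := by
      calc q ^ (k * k) = ∏ _i : Fin k, q ^ k := by
            rw [Finset.prod_const, Finset.card_univ, Fintype.card_fin, ← pow_mul]
        _ ≤ ∏ i : Fin k, (2 * (q ^ k - q ^ (i : ℕ))) := by
            refine Finset.prod_le_prod' (fun i _ => ?_)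
            have h5 : q ^ (i : ℕ) * q ≤ q ^ k := by
              rw [← pow_succ]
              exact Nat.pow_le_pow_right (by omega) i.2
            have h6 : q ^ (i : ℕ) * 2 ≤ q ^ (i : ℕ) * q := Nat.mul_le_mul_left _ hq2
            omega
        _ = 2 ^ k * ∏ i : Fin k, (q ^ k - q ^ (i : ℕ)) := by
            rw [Finset.prod_mul_distrib, Finset.prod_const, Finset.card_univ, Fintype.card_fin]
    have h5 : Nat.card {S : Submodule K V // finrank K S = k} * q ^ (k * k) ≤
        (2 ^ k * q ^ (k * (n - k))) * q ^ (k * k) := by
      calc Nat.card {S : Submodule K V // finrank K S = k} * q ^ (k * k)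
          ≤ Nat.card {S : Submodule K V // finrank K S = k} *
            (2 ^ k * ∏ i : Fin k, (q ^ k - q ^ (i : ℕ))) := Nat.mul_le_mul_left _ h4
        _ = 2 ^ k * (Nat.card {S : Submodule K V // finrank K S = k} *
            ∏ i : Fin k, (q ^ k - q ^ (i : ℕ))) := by ring
        _ ≤ 2 ^ k * q ^ (n * k) := Nat.mul_le_mul_left _ (h1.trans h3)
        _ = (2 ^ k * q ^ (k * (n - k))) * q ^ (k * k) := by
            rw [mul_assoc, ← pow_add, ← mul_add, Nat.sub_add_cancel hk, mul_comm n k]
    exact Nat.le_of_mul_le_mul_right h5 (by positivity)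

end H77AA
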