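import Pool.Agent.Helper77.AA.Basic

/-!
# Block AA-YF : the fibre lemma

Let `N = ker x`, `I = range x`, `I ≤ N`. Suppose the set is not empty and let `y0` be in it, so
`A = ker (x * y0)`, `N ≤ A`.
Facts. (1) `x ∘ f` is injective on `U` (`x (f u) = x (y0 u) = 0` gives `u ∈ A ⊓ U = ⊥`); hence
`range f` has dimension `finrank U = s`, `range f ⊓ N = ⊥`, and `range f ≤ A` as
`x (y0 (y0 u)) = 0`. So `N ⊔ range f` has dimension `finrank N + s` and
`finrank A - finrank (N ⊔ range f) = finrank (range x) - 2 * s` (`finrank A + s = finrank V =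
finrank N + finrank I`; in particular `2 * s ≤ finrank I`).
(2) Any `y` in the set agrees with `y0` on `U`, on `Q`, on `I` (write `v = a + u` with `a ∈ A`,
`u ∈ U`; `y (x v) = x (y v) = x (f u)`), so on `N = I ⊔ Q`, and on `range f` (both are `0` there
since `y (f u) = y (y u) = 0`).
(3) For `a ∈ A` both `y a` and `y0 a` lie in `Z = N ⊓ ker y0`: `x (y a) = 0` and
`y0 (y a) = y (y a) = 0` by (2).
So `y ↦ (y - y0)` restricted to `A` is an injective map of the set into the linear maps
`A ⧸ (N ⊔ range f) → Z`, of which there are `q ^ ((finrank I - 2 * s) * finrank Z)`.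
(4) `finrank Z = finrank N - rank (y0 restricted to N)`, and `y0 (N) = y0 (I) + y0 (Q) =
x (y0 V) + range g = x (y0 U) + range g = map x (range f) ⊔ range g`, of dimension
`s + rk ((map x (range f)).mkQ ∘ g)` as `map x (range f)` has dimension `s`.
-/

namespace H77AA

open Module

private lemma finrank_map_inf {K : Type*} [Field K] {V W : Type*} [AddCommGroup V] [Module K V]
    [FiniteDimensional K V] [AddCommGroup W] [Module K W] (f : V →ₗ[K] W) (p : Submodule K V) :
    finrank K (p.map f) + finrank K (p ⊓ LinearMap.ker f : Submodule K V) = finrank K p := by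
  have h := LinearMap.finrank_range_add_finrank_ker (f.domRestrict p)
  rw [LinearMap.range_domRestrict] at h
  rw [← h]
  congr 1
  have e : p ⊓ LinearMap.ker f = (LinearMap.ker (f.domRestrict p)).map p.subtype := by
    rw [LinearMap.ker_domRestrict, Submodule.map_comap_subtype]
  rw [e, Submodule.finrank_map_subtype_eq]

/-- If the set of the previous lemma is not empty: `f` has values in `A` (`x (y (y u)) = 0`),
`map x (range f)` has dimension `s` and is contained in `map x A`, the range of `g` is contained in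
`map x A` (`y w = x v` and `0 = y (y w) = x (y v)` shows `v ∈ A`), `ker x ≤ A`, and `map x A` has
dimension `rk x - s`, `2 * s ≤ rk x`. -/
theorem fib_facts {K : Type*} [Field K] {V : Type*} [AddCommGroup V] [Module K V]
    [FiniteDimensional K V] (x : Module.End K V) (hx : x * x = 0) (A U Q : Submodule K V)
    (hU : IsCompl A U) (hQs : LinearMap.range x ⊔ Q = LinearMap.ker x) (s : ℕ)
    (hs : finrank K A + s = finrank K V) (y : Module.End K V) (hy : y ∈ YSet x)
    (hA : LinearMap.ker (x * y) = A) :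
    LinearMap.ker x ≤ A ∧ LinearMap.range (y ∘ₗ U.subtype) ≤ A ∧
      finrank K ((LinearMap.range (y ∘ₗ U.subtype)).map x) = s ∧
      (LinearMap.range (y ∘ₗ U.subtype)).map x ≤ A.map x ∧
      LinearMap.range (y ∘ₗ Q.subtype) ≤ A.map x ∧ finrank K (A.map x) + s = rk x ∧
      2 * s ≤ rk x := by
  obtain ⟨hyy, hxy, hyI⟩ := hy
  have hyy' : ∀ v, y (y v) = 0 := fun v => by
    have := congrArg (fun f : Module.End K V => f v) hyy
    simpa using this
  have hxy' : ∀ v, x (y v) = y (x v) := fun v => by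
    have := congrArg (fun f : Module.End K V => f v) hxy
    simpa using this
  have hmemA : ∀ v, v ∈ A ↔ x (y v) = 0 := fun v => by
    rw [← hA, LinearMap.mem_ker]
    rfl
  have h1 : LinearMap.ker x ≤ A := by
    intro v hv
    rw [hmemA, hxy', LinearMap.mem_ker.1 hv, map_zero]
  have h2 : LinearMap.range (y ∘ₗ U.subtype) ≤ A := by
    rintro _ ⟨u, rfl⟩
    rw [hmemA]
    change x (y (y u)) = 0
    rw [hyy', map_zero]
  have hU' : finrank K U = s := by
    have := Submodule.finrank_add_eq_of_isCompl hU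
    omega
  have h3 : finrank K ((LinearMap.range (y ∘ₗ U.subtype)).map x) = s := by
    rw [← LinearMap.range_comp, ← hU']
    apply LinearMap.finrank_range_of_inj
    rw [← LinearMap.ker_eq_bot, LinearMap.ker_eq_bot']
    intro u hu
    have hu1 : (u : V) ∈ A := by
      rw [hmemA]
      exact hu
    have hu2 : (u : V) ∈ A ⊓ U := ⟨hu1, u.2⟩
    rw [hU.inf_eq_bot, Submodule.mem_bot] at hu2
    exact Subtype.ext hu2
  have h4 : (LinearMap.range (y ∘ₗ U.subtype)).map x ≤ A.map x := Submodule.map_mono h2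
  have h5 : LinearMap.range (y ∘ₗ Q.subtype) ≤ A.map x := by
    rintro _ ⟨w, rfl⟩
    have hw : (w : V) ∈ LinearMap.ker x := by
      rw [← hQs]
      exact Submodule.mem_sup_right w.2
    obtain ⟨v, hv⟩ := hyI w (LinearMap.mem_ker.1 hw)
    refine ⟨v, ?_, hv⟩
    change v ∈ A
    rw [hmemA, hxy', hv, hyy']
  have h6 : finrank K (A.map x) + s = rk x := by
    have e1 := finrank_map_inf x A
    rw [inf_eq_right.2 h1] at e1
    have e2 := LinearMap.finrank_range_add_finrank_ker x
    change _ = finrank K (LinearMap.range x)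
    omega
  have h7 : s ≤ finrank K (A.map x) := by
    rw [← h3]
    exact Submodule.finrank_mono h4
  exact ⟨h1, h2, h3, h4, h5, h6, by omega⟩

theorem card_fib {K : Type*} [Field K] [Finite K] {V : Type*} [AddCommGroup V] [Module K V]
    [FiniteDimensional K V] (x : Module.End K V) (hx : x * x = 0) (A U Q : Submodule K V)
    (hU : IsCompl A U) (hQd : Disjoint (LinearMap.range x) Q)
    (hQs : LinearMap.range x ⊔ Q = LinearMap.ker x) (f : U →ₗ[K] V) (g : Q →ₗ[K] V) (s : ℕ)
    (hs : finrank K A + s = finrank K V) :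
    Nat.card {y : Module.End K V // y ∈ YSet x ∧ LinearMap.ker (x * y) = A ∧
        y ∘ₗ U.subtype = f ∧ y ∘ₗ Q.subtype = g} ≤
      Nat.card K ^ ((rk x - 2 * s) * (finrank K (LinearMap.ker x) - s -
        rk (((LinearMap.range f).map x).mkQ ∘ₗ g))) := by
  classical
  rcases isEmpty_or_nonempty {y : Module.End K V // y ∈ YSet x ∧ LinearMap.ker (x * y) = A ∧
        y ∘ₗ U.subtype = f ∧ y ∘ₗ Q.subtype = g} with hemp | ⟨y0, hy0, hA0, hf0, hg0⟩
  · rw [Nat.card_of_isEmpty]
    exact Nat.zero_le _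
  obtain ⟨h1, h2, h3, h4, h5, h6, h7⟩ := fib_facts x hx A U Q hU hQs s hs y0 hy0 hA0
  rw [hf0] at h2 h3 h4
  rw [hg0] at h5
  have hsq : ∀ y ∈ YSet x, ∀ v, y (y v) = 0 := fun y hy v => by
    have := congrArg (fun f : Module.End K V => f v) hy.1
    simpa using this
  have hcm : ∀ y ∈ YSet x, ∀ v, x (y v) = y (x v) := fun y hy v => by
    have := congrArg (fun f : Module.End K V => f v) hy.2.1
    simpa using this
  -- the submodules
  set B : Submodule K V := LinearMap.ker x ⊔ LinearMap.range f with hB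
  have hBA : B ≤ A := sup_le h1 h2
  obtain ⟨C', hC'⟩ := Submodule.exists_isCompl B
  set C : Submodule K V := C' ⊓ A with hC
  have hBC : B ⊔ C = A := by
    rw [hC, ← sup_inf_assoc_of_le C' hBA, hC'.sup_eq_top, top_inf_eq]
  have hBCi : B ⊓ C = ⊥ := by
    rw [hC, ← inf_assoc, hC'.inf_eq_bot, bot_inf_eq]
  have hmapN : (LinearMap.ker x).map x = ⊥ := by
    rw [eq_bot_iff]
    rintro _ ⟨v, hv, rfl⟩
    exact hv
  have hBdim : finrank K B = finrank K (LinearMap.ker x) + s := by
    have e1 := finrank_map_inf x B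
    rw [inf_eq_right.2 (le_sup_left : LinearMap.ker x ≤ B), hB, Submodule.map_sup, hmapN,
      bot_sup_eq, h3, ← hB] at e1
    omega
  have hCdim : finrank K C = rk x - 2 * s := by
    have e1 := Submodule.finrank_sup_add_finrank_inf_eq B C
    rw [hBC, hBCi, finrank_bot] at e1
    have e2 := LinearMap.finrank_range_add_finrank_ker x
    change _ = finrank K (LinearMap.range x) - 2 * s
    omega
  set Z : Submodule K V := LinearMap.ker x ⊓ LinearMap.ker y0 with hZ
  -- the image of the kernel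
  have hyN : (LinearMap.ker x).map y0 = (LinearMap.range f).map x ⊔ LinearMap.range g := by
    rw [← hQs, Submodule.map_sup]
    congr 1
    · apply le_antisymm
      · rintro _ ⟨_, ⟨v, rfl⟩, rfl⟩
        have hv : v ∈ A ⊔ U := by rw [hU.sup_eq_top]; trivial
        obtain ⟨a, ha, u, hu, rfl⟩ := Submodule.mem_sup.1 hv
        refine ⟨f ⟨u, hu⟩, ⟨⟨u, hu⟩, rfl⟩, ?_⟩
        rw [← hcm y0 hy0, map_add, map_add]
        have ha' : x (y0 a) = 0 := by
          rw [← hA0] at ha
          exact ha
        rw [ha', zero_add, ← hf0]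
        rfl
      · rintro _ ⟨_, ⟨u, rfl⟩, rfl⟩
        refine ⟨x u, ⟨u, rfl⟩, ?_⟩
        rw [← hcm y0 hy0, ← hf0]
        rfl
    · rw [← hg0, LinearMap.range_comp, Submodule.range_subtype]
  have hW : finrank K ((LinearMap.range f).map x ⊔ LinearMap.range g : Submodule K V) =
      s + rk (((LinearMap.range f).map x).mkQ ∘ₗ g) := by
    have e1 := finrank_map_inf ((LinearMap.range f).map x).mkQ
      ((LinearMap.range f).map x ⊔ LinearMap.range g)
    rw [Submodule.ker_mkQ, inf_eq_right.2 le_sup_left, h3, Submodule.map_sup,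
      Submodule.mkQ_map_self, bot_sup_eq] at e1
    have e2 : LinearMap.range (((LinearMap.range f).map x).mkQ ∘ₗ g) =
        (LinearMap.range g).map ((LinearMap.range f).map x).mkQ := LinearMap.range_comp _ _
    change _ = s + finrank K (LinearMap.range (((LinearMap.range f).map x).mkQ ∘ₗ g))
    rw [e2]
    omega
  have hZdim : finrank K Z = finrank K (LinearMap.ker x) - s -
        rk (((LinearMap.range f).map x).mkQ ∘ₗ g) := by
    have e1 := finrank_map_inf y0 (LinearMap.ker x)
    rw [hyN, hW, ← hZ] at e1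
    omega
  -- agreement on the kernel of `x`
  have hagI : ∀ y ∈ YSet x, LinearMap.ker (x * y) = A → y ∘ₗ U.subtype = f → ∀ v,
      y (x v) = y0 (x v) := by
    intro y hy hA hf v
    have hv : v ∈ A ⊔ U := by rw [hU.sup_eq_top]; trivial
    obtain ⟨a, ha, u, hu, rfl⟩ := Submodule.mem_sup.1 hv
    rw [← hcm y hy, ← hcm y0 hy0, map_add, map_add, map_add, map_add]
    have ha' : x (y0 a) = 0 := by
      have := ha
      rw [← hA0] at this
      exact this
    have ha'' : x (y a) = 0 := by
      have := ha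
      rw [← hA] at this
      exact this
    have hu1 : y u = y0 u := by
      have e := hf.trans hf0.symm
      exact congrArg (fun l : U →ₗ[K] V => l ⟨u, hu⟩) e
    rw [ha', ha'', hu1]
  have hagN : ∀ y ∈ YSet x, LinearMap.ker (x * y) = A → y ∘ₗ U.subtype = f → y ∘ₗ Q.subtype = g →
      ∀ v ∈ LinearMap.ker x, y v = y0 v := by
    intro y hy hA hf hg v hv
    rw [← hQs] at hv
    obtain ⟨_, ⟨w, rfl⟩, b, hb, rfl⟩ := Submodule.mem_sup.1 hv
    rw [map_add, map_add, hagI y hy hA hf w]
    have hb1 : y b = y0 b := by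
      have e := hg.trans hg0.symm
      exact congrArg (fun l : Q →ₗ[K] V => l ⟨b, hb⟩) e
    rw [hb1]
  have hagB : ∀ y ∈ YSet x, LinearMap.ker (x * y) = A → y ∘ₗ U.subtype = f → y ∘ₗ Q.subtype = g →
      ∀ v ∈ B, y v = y0 v := by
    intro y hy hA hf hg v hv
    obtain ⟨n, hn, _, ⟨u, rfl⟩, rfl⟩ := Submodule.mem_sup.1 hv
    rw [map_add, map_add, hagN y hy hA hf hg n hn]
    congr 1
    have e1 : y (f u) = 0 := by
      rw [← hf]
      exact hsq y hy _
    have e2 : y0 (f u) = 0 := by
      rw [← hf0]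
      exact hsq y0 hy0 _
    rw [e1, e2]
  have hCZ : ∀ y ∈ YSet x, LinearMap.ker (x * y) = A → y ∘ₗ U.subtype = f → y ∘ₗ Q.subtype = g →
      ∀ c : C, (y ∘ₗ C.subtype) c ∈ Z := by
    intro y hy hA hf hg c
    have hcA : (c : V) ∈ A := (hBC ▸ (le_sup_right : C ≤ B ⊔ C)) c.2
    have e1 : x (y c) = 0 := by
      rw [← hA] at hcA
      exact hcA
    refine ⟨e1, ?_⟩
    change y0 (y c) = 0
    rw [← hagN y hy hA hf hg (y c) e1]
    exact hsq y hy _
  have hfin : Finite (C →ₗ[K] Z) := finite_hom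
  have hcard : Nat.card (C →ₗ[K] Z) = Nat.card K ^ ((rk x - 2 * s) *
      (finrank K (LinearMap.ker x) - s - rk (((LinearMap.range f).map x).mkQ ∘ₗ g))) := by
    rw [natCard_hom, hCdim, hZdim]
  rw [← hcard]
  refine Nat.card_le_card_of_injective
    (fun y : {y : Module.End K V // y ∈ YSet x ∧ LinearMap.ker (x * y) = A ∧
        y ∘ₗ U.subtype = f ∧ y ∘ₗ Q.subtype = g} =>
      ((y.1 ∘ₗ C.subtype).codRestrict Z (hCZ y.1 y.2.1 y.2.2.1 y.2.2.2.1 y.2.2.2.2) : C →ₗ[K] Z)) ?_
  rintro ⟨y, hy, hA, hf, hg⟩ ⟨y', hy', hA', hf', hg'⟩ h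
  apply Subtype.ext
  change y = y'
  have hC1 : ∀ c ∈ C, y c = y' c := by
    intro c hc
    have e := congrArg (fun l : C →ₗ[K] Z => ((l ⟨c, hc⟩ : Z) : V)) h
    exact e
  ext v
  have hv : v ∈ A ⊔ U := by rw [hU.sup_eq_top]; trivial
  obtain ⟨a, ha, u, hu, rfl⟩ := Submodule.mem_sup.1 hv
  rw [← hBC] at ha
  obtain ⟨b, hb, c, hc, rfl⟩ := Submodule.mem_sup.1 ha
  have hu1 : y u = y' u := by
    have e := hf.trans hf'.symm
    exact congrArg (fun l : U →ₗ[K] V => l ⟨u, hu⟩) e
  rw [map_add, map_add, map_add, map_add, hu1, hC1 c hc, hagB y hy hA hf hg b hb,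
    hagB y' hy' hA' hf' hg' b hb]

end H77AA
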