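import Pool.Agent.Helper77.AA.Maps

/-!
# Block AA-YG : counting maps into a subspace with given rank modulo a smaller subspace

Proof. The maps `g : W → V` with range in `X` are the maps `W → X`. Composing with
`X → X / L` gives a map `h : W → X / L` (use `L.comap X.subtype` or `L.submoduleOf X`), whose rank
is the rank of `L.mkQ ∘ g` because `X / L` embeds in `V / L`. The number of `h` of rank `t` is at
most `2 ^ t * q ^ (t * (w + (dim X - dim L) - t))` (`card_maps_rank`), and two `g` with the same `h`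
differ by a map `W → L`, so each fibre has at most `q ^ (w * dim L)` elements.
-/

namespace H77AA

open Module

theorem card_g {K : Type*} [Field K] [Finite K] {V : Type*} [AddCommGroup V] [Module K V]
    [FiniteDimensional K V] {W : Type*} [AddCommGroup W] [Module K W] [FiniteDimensional K W]
    (L X : Submodule K V) (hLX : L ≤ X) (t : ℕ) :
    Nat.card {g : W →ₗ[K] V // LinearMap.range g ≤ X ∧ rk (L.mkQ ∘ₗ g) = t} ≤
      2 ^ t * Nat.card K ^ (t * (finrank K W + (finrank K X - finrank K L) - t) +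
        finrank K W * finrank K L) := by
  classical
  obtain ⟨r, hr⟩ := L.subtype.exists_leftInverse_of_injective (Submodule.ker_subtype L)
  set L' : Submodule K X := L.comap X.subtype with hL'
  let ι : (X ⧸ L') →ₗ[K] (V ⧸ L) := Submodule.mapQ L' L X.subtype le_rfl
  have hι : Function.Injective ι := by
    rw [← LinearMap.ker_eq_bot, LinearMap.ker_eq_bot']
    intro q hq
    obtain ⟨v, rfl⟩ := Submodule.mkQ_surjective L' q
    have h1 : ι (L'.mkQ v) = L.mkQ (X.subtype v) := rfl
    rw [h1, Submodule.mkQ_apply, Submodule.Quotient.mk_eq_zero] at hq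
    rw [Submodule.mkQ_apply, Submodule.Quotient.mk_eq_zero]
    exact hq
  let cr : {g : W →ₗ[K] V // LinearMap.range g ≤ X ∧ rk (L.mkQ ∘ₗ g) = t} → (W →ₗ[K] X) :=
    fun g => g.1.codRestrict X (fun w => g.2.1 ⟨w, rfl⟩)
  have hcr : ∀ g, L.mkQ ∘ₗ g.1 = ι ∘ₗ (L'.mkQ ∘ₗ cr g) := by
    intro g
    ext w
    rfl
  have hrk : ∀ g, rk (L'.mkQ ∘ₗ cr g) = t := by
    intro g
    have h1 := g.2.2
    rw [hcr g] at h1
    rw [← h1]
    unfold rk
    rw [LinearMap.range_comp (L'.mkQ ∘ₗ cr g) ι]
    exact (Submodule.equivMapOfInjective ι hι (LinearMap.range (L'.mkQ ∘ₗ cr g))).finrank_eq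
  let F : {g : W →ₗ[K] V // LinearMap.range g ≤ X ∧ rk (L.mkQ ∘ₗ g) = t} →
      {h : W →ₗ[K] (X ⧸ L') // rk h = t} × (W →ₗ[K] L) :=
    fun g => (⟨L'.mkQ ∘ₗ cr g, hrk g⟩, r ∘ₗ g.1)
  have hF : Function.Injective F := by
    intro g g' h
    have h1 : L'.mkQ ∘ₗ cr g = L'.mkQ ∘ₗ cr g' := congrArg Subtype.val (congrArg Prod.fst h)
    have h2 : r ∘ₗ g.1 = r ∘ₗ g'.1 := congrArg Prod.snd h
    apply Subtype.ext
    ext w
    have h3 : L.mkQ (g.1 w) = L.mkQ (g'.1 w) := by
      have e1 := LinearMap.congr_fun (hcr g) w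
      have e2 := LinearMap.congr_fun (hcr g') w
      rw [h1] at e1
      exact e1.trans e2.symm
    have h4 : g.1 w - g'.1 w ∈ L := by
      rw [Submodule.mkQ_apply, Submodule.mkQ_apply, Submodule.Quotient.eq] at h3
      exact h3
    have h5 : r (g.1 w - g'.1 w) = 0 := by
      rw [map_sub, sub_eq_zero]
      exact LinearMap.congr_fun h2 w
    have h6 : r (g.1 w - g'.1 w) = ⟨g.1 w - g'.1 w, h4⟩ := LinearMap.congr_fun hr ⟨_, h4⟩
    rw [h5] at h6
    have h7 := congrArg Subtype.val h6
    change (0 : V) = g.1 w - g'.1 w at h7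
    exact sub_eq_zero.mp h7.symm
  haveI f1 : Finite (W →ₗ[K] (X ⧸ L')) := finite_hom
  haveI f2 : Finite (W →ₗ[K] L) := finite_hom
  have hc := Nat.card_le_card_of_injective F hF
  rw [Nat.card_prod, natCard_hom] at hc
  have hd : finrank K (X ⧸ L') = finrank K X - finrank K L := by
    rw [Submodule.finrank_quotient, (Submodule.comapSubtypeEquivOfLe hLX).finrank_eq]
  have hm := card_maps_rank (K := K) (V := W) (W := X ⧸ L') t
  rw [hd] at hm
  calc _ ≤ _ := hc
    _ ≤ (2 ^ t * Nat.card K ^ (t * (finrank K W + (finrank K X - finrank K L) - t))) *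
        Nat.card K ^ (finrank K W * finrank K L) := Nat.mul_le_mul_right _ hm
    _ = _ := by rw [pow_add, mul_assoc]

end H77AA
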