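import Pool.Agent.Helper77.AA.YG
import Pool.Agent.Helper77.AA.YF

/-!
# Block AA-YS : the number of elements of `YSet x`

Notation: `m = dim V`, `R = rk x`, `N = ker x` (dimension `m - R`), `k = m - 2 R` (as `x * x = 0`
gives `range x ≤ ker x`), `q = Nat.card K`.

Proof of `card_Y_A`. Choose a complement `U` of `A` (dimension `s`) and a complement `Q` of
`range x` inside `ker x` (dimension `k`). Send `y` to the pair `(f, g)` of its restrictions to `U`
and `Q`. By `fib_facts` `f` is one of at most `q ^ (s * (m - s))` maps `U → A`; for given `f` put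
`L = map x (range f)` (dimension `s`), `X = map x A` (dimension `R - s`); the number of `g` with
`rk (L.mkQ ∘ g) = t` is at most `2 ^ t * q ^ (t * (k + (R - 2 s) - t) + k * s)` (`card_g`), and
for given `f`, `g` the number of `y` is at most `q ^ ((R - 2 s) * (m - R - s - t))` (`card_fib`).
Here `t ≤ k` and `t ≤ R - 2 s` if there is such a `g`. With `R = 2 s + e`, `m = 2 R + k`,
`t ≤ k`, `t ≤ e` the exponents satisfy
`s (R - s) + s (m - s) + k s + t (k + e - t) + e (m - R - s - t) = R ^ 2 + R k + t (k - t)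
 ≤ m ^ 2 / 4` (four times the middle is `≤ (2 R + k) ^ 2`). Sum over `t ≤ m` (at most `m + 1`
values; `2 ^ t ≤ 2 ^ m`).

Proof of `card_Y`. Sum `card_Y_A` over `s ≤ m` and over `A` (`card_sub_above` with `N = ker x`,
`dim V - dim N = R`): every `y` in `YSet x` has `ker x ≤ ker (x * y)`.
-/

namespace H77AA

open Module

/-- counting through a map with bounded fibres -/
private theorem fiber_le {α β : Type*} [Finite α] (P : α → Prop) (φ : α → β) (B : Set β) [Finite B]
    (hB : ∀ a, P a → φ a ∈ B) (w C : ℕ) (hM : ∀ b ∈ B, Nat.card {a // P a ∧ φ a = b} * w ≤ C) :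
    Nat.card {a // P a} * w ≤ Nat.card B * C := by
  classical
  have := Fintype.ofFinite α
  have := Fintype.ofFinite B
  have h1 : Nat.card {a // P a} = (Finset.univ.filter P).card := by
    rw [Nat.card_eq_fintype_card, Fintype.card_subtype]
  have h2 : (Finset.univ.filter P).card = ∑ b ∈ B.toFinset, ((Finset.univ.filter P).filter (fun a => φ a = b)).card :=
    Finset.card_eq_sum_card_fiberwise (fun a ha => by
      have := (Finset.mem_filter.1 (Finset.mem_coe.1 ha)).2
      exact Finset.mem_coe.2 (Set.mem_toFinset.2 (hB a this)))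
  rw [h1, h2, Finset.sum_mul]
  have h3 : ∀ b ∈ B.toFinset, ((Finset.univ.filter P).filter (fun a => φ a = b)).card * w ≤ C := by
    intro b hb
    have h4 := hM b (Set.mem_toFinset.1 hb)
    have h5 : Nat.card {a // P a ∧ φ a = b} = ((Finset.univ.filter P).filter (fun a => φ a = b)).card := by
      rw [Nat.card_eq_fintype_card, Fintype.card_subtype, Finset.filter_filter]
    rwa [h5] at h4
  refine (Finset.sum_le_card_nsmul _ _ _ h3).trans ?_
  rw [smul_eq_mul, Set.toFinset_card, Nat.card_eq_fintype_card]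

private theorem class_sum {α : Type*} [Finite α] (P : α → Prop) (τ : α → ℕ) (T : ℕ)
    (hτ : ∀ a, P a → τ a < T) :
    Nat.card {a // P a} = ∑ t ∈ Finset.range T, Nat.card {a // P a ∧ τ a = t} := by
  classical
  have := Fintype.ofFinite α
  have h1 : Nat.card {a // P a} = (Finset.univ.filter P).card := by
    rw [Nat.card_eq_fintype_card, Fintype.card_subtype]
  have h2 : (Finset.univ.filter P).card =
      ∑ t ∈ Finset.range T, ((Finset.univ.filter P).filter (fun a => τ a = t)).card :=
    Finset.card_eq_sum_card_fiberwise (fun a ha => by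
      have := (Finset.mem_filter.1 (Finset.mem_coe.1 ha)).2
      exact Finset.mem_coe.2 (Finset.mem_range.2 (hτ a this)))
  rw [h1, h2]
  apply Finset.sum_congr rfl
  intro t _
  rw [Nat.card_eq_fintype_card, Fintype.card_subtype, Finset.filter_filter]

/-- the number of maps with values in a subspace -/
private theorem card_into {K : Type*} [Field K] [Finite K] {V : Type*} [AddCommGroup V] [Module K V]
    [FiniteDimensional K V] {W : Type*} [AddCommGroup W] [Module K W] [FiniteDimensional K W]
    (A : Submodule K V) : Nat.card {f : W →ₗ[K] V // LinearMap.range f ≤ A} ≤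
      Nat.card K ^ (finrank K W * finrank K A) := by
  have : Finite (W →ₗ[K] A) := finite_hom
  rw [← natCard_hom (K := K) (V := W) (W := A)]
  refine Nat.card_le_card_of_injective
    (fun f : {f : W →ₗ[K] V // LinearMap.range f ≤ A} => LinearMap.codRestrict A f.1
      (fun w => f.2 (LinearMap.mem_range_self f.1 w))) ?_
  intro f g h
  apply Subtype.ext
  ext w
  have := congrArg (fun r : W →ₗ[K] A => ((r w : A) : V)) h
  simpa using this

/-- a complement of the image inside the kernel -/
private theorem exists_Q {K : Type*} [Field K] {V : Type*} [AddCommGroup V] [Module K V]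
    (x : Module.End K V) (hx : x * x = 0) : ∃ Q : Submodule K V, Disjoint (LinearMap.range x) Q ∧
      LinearMap.range x ⊔ Q = LinearMap.ker x := by
  obtain ⟨C, hC⟩ := Submodule.exists_isCompl (LinearMap.range x)
  have hle : LinearMap.range x ≤ LinearMap.ker x := by
    rintro _ ⟨v, rfl⟩
    rw [LinearMap.mem_ker]
    exact congrArg (fun r : Module.End K V => r v) hx
  refine ⟨C ⊓ LinearMap.ker x, hC.disjoint.mono_right inf_le_left, ?_⟩
  rw [← sup_inf_assoc_of_le C hle, hC.sup_eq_top, top_inf_eq]

private theorem map_mkQ {K : Type*} [Field K] {V : Type*} [AddCommGroup V] [Module K V]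
    [FiniteDimensional K V] {L X : Submodule K V} (h : L ≤ X) :
    finrank K (X.map L.mkQ) + finrank K L = finrank K X := by
  have h1 := LinearMap.finrank_range_add_finrank_ker (L.mkQ.domRestrict X)
  have h2 : LinearMap.range (L.mkQ.domRestrict X) = X.map L.mkQ := LinearMap.range_domRestrict X L.mkQ
  have h3 : LinearMap.ker (L.mkQ.domRestrict X) = L.comap X.subtype := by
    ext v
    rw [LinearMap.mem_ker, LinearMap.domRestrict_apply, Submodule.mkQ_apply, Submodule.Quotient.mk_eq_zero]
    rfl
  rw [h2, h3, (Submodule.comapSubtypeEquivOfLe h).finrank_eq] at h1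
  exact h1

/-- the exponent -/
private theorem expo {m R k s e t : ℕ} (hm : m = 2 * R + k) (hR : R = 2 * s + e) (ht1 : t ≤ k) (ht2 : t ≤ e) :
    (t * (k + e - t) + k * s) + e * (m - R - s - t) + (s * (m - s) + s * (R - s)) ≤ m ^ 2 / 4 := by
  rw [Nat.le_div_iff_mul_le (by norm_num)]
  obtain ⟨k', rfl⟩ : ∃ k', k = t + k' := ⟨k - t, by omega⟩
  obtain ⟨e', rfl⟩ : ∃ e', e = t + e' := ⟨e - t, by omega⟩
  have e1 : t + k' + (t + e') - t = t + k' + e' := by omega
  have e2 : m - R - s - t = s + e' + t + k' := by omega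
  have e3 : m - s = 3 * s + 2 * (t + e') + t + k' := by omega
  have e4 : R - s = s + (t + e') := by omega
  rw [e1, e2, e3, e4, hm, hR]
  zify
  nlinarith [sq_nonneg ((t : ℤ) - k')]

theorem card_Y_A {K : Type*} [Field K] [Finite K] {V : Type*} [AddCommGroup V] [Module K V]
    [FiniteDimensional K V] (x : Module.End K V) (hx : x * x = 0) (A : Submodule K V) (s : ℕ)
    (hs : finrank K A + s = finrank K V) :
    Nat.card {y : Module.End K V // y ∈ YSet x ∧ LinearMap.ker (x * y) = A} *
        Nat.card K ^ (s * (rk x - s)) ≤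
      (finrank K V + 1) * 2 ^ finrank K V * Nat.card K ^ (finrank K V ^ 2 / 4) := by
  classical
  have hfin : Finite (Module.End K V) := finite_hom
  set q := Nat.card K with hq
  have hq1 : 1 ≤ q := Nat.card_pos
  set m := finrank K V with hm
  set R := rk x with hR
  obtain ⟨U, hU⟩ := Submodule.exists_isCompl A
  obtain ⟨Q, hQd, hQs⟩ := exists_Q x hx
  set k := finrank K Q with hk
  have hker : R + finrank K (LinearMap.ker x) = m := LinearMap.finrank_range_add_finrank_ker x
  have hRk : R + k = finrank K (LinearMap.ker x) := by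
    have h := Submodule.finrank_sup_add_finrank_inf_eq (LinearMap.range x) Q
    rw [hQs, hQd.eq_bot, finrank_bot, add_zero] at h
    exact h.symm
  have hm2 : m = 2 * R + k := by omega
  have hUs : finrank K U = s := by
    have h := Submodule.finrank_add_eq_of_isCompl hU
    omega
  set w := q ^ (s * (m - s)) * q ^ (s * (R - s)) with hw
  set C := (m + 1) * (2 ^ m * q ^ (m ^ 2 / 4)) with hC
  have hfU : Finite (U →ₗ[K] V) := finite_hom
  have hfQ : Finite (Q →ₗ[K] V) := finite_hom
  -- for a given restriction to `U`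
  have main : ∀ f : U →ₗ[K] V, Nat.card {y : Module.End K V // (y ∈ YSet x ∧ LinearMap.ker (x * y) = A) ∧
      y ∘ₗ U.subtype = f} * w ≤ C := by
    intro f
    rcases isEmpty_or_nonempty {y : Module.End K V // (y ∈ YSet x ∧ LinearMap.ker (x * y) = A) ∧
      y ∘ₗ U.subtype = f} with hE | ⟨⟨y₁, ⟨hy₁, hA₁⟩, hf₁⟩⟩
    · rw [Nat.card_of_isEmpty, zero_mul]; exact Nat.zero_le _
    obtain ⟨g1, g2, g3, g4, -, g6, g7⟩ := fib_facts x hx A U Q hU hQs s hs y₁ hy₁ hA₁
    rw [hf₁] at g2 g3 g4
    set L := (LinearMap.range f).map x with hL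
    set X := A.map x with hX
    obtain ⟨e, he⟩ : ∃ e, R = 2 * s + e := ⟨R - 2 * s, by omega⟩
    have hXL : finrank K X - finrank K L = e := by omega
    -- range and rank of the restriction to `Q`
    have hprop : ∀ y : Module.End K V, ((y ∈ YSet x ∧ LinearMap.ker (x * y) = A) ∧ y ∘ₗ U.subtype = f) →
        LinearMap.range (y ∘ₗ Q.subtype) ≤ X ∧ rk (L.mkQ ∘ₗ (y ∘ₗ Q.subtype)) ≤ k ∧
          rk (L.mkQ ∘ₗ (y ∘ₗ Q.subtype)) ≤ e := by
      rintro y ⟨⟨hy, hA⟩, hf⟩
      obtain ⟨-, -, -, -, h5, -, -⟩ := fib_facts x hx A U Q hU hQs s hs y hy hA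
      refine ⟨h5, LinearMap.finrank_range_le _, ?_⟩
      have h6 : LinearMap.range (L.mkQ ∘ₗ (y ∘ₗ Q.subtype)) ≤ X.map L.mkQ := by
        rw [LinearMap.range_comp]
        exact Submodule.map_mono h5
      have h7 : finrank K (X.map L.mkQ) + finrank K L = finrank K X := map_mkQ g4
      have h8 := Submodule.finrank_mono h6
      have h9 : rk (L.mkQ ∘ₗ (y ∘ₗ Q.subtype)) ≤ finrank K (X.map L.mkQ) := h8
      omega
    rw [class_sum (fun y : Module.End K V => (y ∈ YSet x ∧ LinearMap.ker (x * y) = A) ∧ y ∘ₗ U.subtype = f)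
      (fun y => rk (L.mkQ ∘ₗ (y ∘ₗ Q.subtype))) (m + 1) (fun y hy => by
        have := (hprop y hy).2.1
        omega), Finset.sum_mul]
    have hterm : ∀ t ∈ Finset.range (m + 1), Nat.card {y : Module.End K V //
        ((y ∈ YSet x ∧ LinearMap.ker (x * y) = A) ∧ y ∘ₗ U.subtype = f) ∧
          rk (L.mkQ ∘ₗ (y ∘ₗ Q.subtype)) = t} * w ≤ 2 ^ m * q ^ (m ^ 2 / 4) := by
      intro t _
      rcases isEmpty_or_nonempty {y : Module.End K V //
        ((y ∈ YSet x ∧ LinearMap.ker (x * y) = A) ∧ y ∘ₗ U.subtype = f) ∧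
          rk (L.mkQ ∘ₗ (y ∘ₗ Q.subtype)) = t} with hE | ⟨⟨y₂, hy₂, ht₂⟩⟩
      · rw [Nat.card_of_isEmpty, zero_mul]; exact Nat.zero_le _
      have ht1 : t ≤ k := ht₂ ▸ (hprop y₂ hy₂).2.1
      have ht2 : t ≤ e := ht₂ ▸ (hprop y₂ hy₂).2.2
      have h1 := fiber_le (fun y : Module.End K V => ((y ∈ YSet x ∧ LinearMap.ker (x * y) = A) ∧
          y ∘ₗ U.subtype = f) ∧ rk (L.mkQ ∘ₗ (y ∘ₗ Q.subtype)) = t) (fun y => y ∘ₗ Q.subtype)
        {g : Q →ₗ[K] V | LinearMap.range g ≤ X ∧ rk (L.mkQ ∘ₗ g) = t}
        (fun y hy => ⟨(hprop y hy.1).1, hy.2⟩) 1 (q ^ (e * (m - R - s - t))) (by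
          intro g hg
          rw [mul_one]
          have h2 := card_fib x hx A U Q hU hQd hQs f g s hs
          rw [← hL, hg.2] at h2
          have h3 : Nat.card {y : Module.End K V // (((y ∈ YSet x ∧ LinearMap.ker (x * y) = A) ∧
              y ∘ₗ U.subtype = f) ∧ rk (L.mkQ ∘ₗ (y ∘ₗ Q.subtype)) = t) ∧ y ∘ₗ Q.subtype = g} ≤
              Nat.card {y : Module.End K V // y ∈ YSet x ∧ LinearMap.ker (x * y) = A ∧
                y ∘ₗ U.subtype = f ∧ y ∘ₗ Q.subtype = g} := by
            refine Nat.card_le_card_of_injective (fun y => ⟨y.1, y.2.1.1.1.1, y.2.1.1.1.2, y.2.1.1.2, y.2.2⟩) ?_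
            intro a b hab
            have hab' := congrArg Subtype.val hab
            exact Subtype.ext hab'
          refine (h3.trans h2).trans ?_
          rw [show rk x - 2 * s = e by omega, show finrank K (LinearMap.ker x) = m - R by omega])
      rw [mul_one] at h1
      have h4 := card_g L X g4 t (W := Q)
      rw [hXL, g3] at h4
      have h5 : Nat.card {g : Q →ₗ[K] V | LinearMap.range g ≤ X ∧ rk (L.mkQ ∘ₗ g) = t} ≤
          2 ^ t * q ^ (t * (k + e - t) + k * s) := h4
      calc _ ≤ (2 ^ t * q ^ (t * (k + e - t) + k * s)) * q ^ (e * (m - R - s - t)) * w :=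
            Nat.mul_le_mul_right _ (h1.trans (Nat.mul_le_mul_right _ h5))
        _ = 2 ^ t * q ^ ((t * (k + e - t) + k * s) + e * (m - R - s - t) + (s * (m - s) + s * (R - s))) := by
            rw [hw, pow_add q ((t * (k + e - t) + k * s) + e * (m - R - s - t)),
              pow_add q (t * (k + e - t) + k * s), pow_add q (s * (m - s))]
            ring
        _ ≤ 2 ^ m * q ^ (m ^ 2 / 4) :=
            Nat.mul_le_mul (Nat.pow_le_pow_right (by norm_num) (by omega))
              (Nat.pow_le_pow_right hq1 (expo hm2 he ht1 ht2))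
    refine (Finset.sum_le_card_nsmul _ _ _ hterm).trans ?_
    rw [Finset.card_range, smul_eq_mul]
  -- the restriction to `U`
  have h1 := fiber_le (fun y : Module.End K V => y ∈ YSet x ∧ LinearMap.ker (x * y) = A)
    (fun y => y ∘ₗ U.subtype) {f : U →ₗ[K] V | LinearMap.range f ≤ A}
    (fun y hy => (fib_facts x hx A U Q hU hQs s hs y hy.1 hy.2).2.1) w C (fun f _ => main f)
  have h2 : Nat.card {f : U →ₗ[K] V | LinearMap.range f ≤ A} ≤ q ^ (s * (m - s)) := by
    have h3 := card_into (K := K) (W := U) A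
    rw [hUs, show finrank K A = m - s by omega] at h3
    exact h3
  have h4 := h1.trans (Nat.mul_le_mul_right C h2)
  have h5 : q ^ (s * (m - s)) * (Nat.card {y : Module.End K V // y ∈ YSet x ∧ LinearMap.ker (x * y) = A} *
      q ^ (s * (R - s))) ≤ q ^ (s * (m - s)) * C := by
    calc _ = Nat.card {y : Module.End K V // y ∈ YSet x ∧ LinearMap.ker (x * y) = A} * w := by rw [hw]; ring
      _ ≤ _ := h4
  have h6 := Nat.le_of_mul_le_mul_left h5 (by positivity)
  calc _ ≤ C := h6
    _ = _ := by rw [hC]; ring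

theorem card_Y {K : Type*} [Field K] [Finite K] {V : Type*} [AddCommGroup V] [Module K V]
    [FiniteDimensional K V] (x : Module.End K V) (hx : x * x = 0) :
    Nat.card (YSet x) ≤ (finrank K V + 1) ^ 2 * 4 ^ finrank K V *
      Nat.card K ^ (finrank K V ^ 2 / 4) := by
  classical
  have hfin : Finite (Module.End K V) := finite_hom
  have hfs : Finite (Submodule K V) := finite_sub
  set q := Nat.card K with hq
  have hq1 : 1 ≤ q := Nat.card_pos
  set m := finrank K V with hm
  set R := rk x with hR
  have hker : R + finrank K (LinearMap.ker x) = m := LinearMap.finrank_range_add_finrank_ker x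
  have h0 : Nat.card (YSet x) = ∑ s ∈ Finset.range (m + 1), Nat.card {y : Module.End K V //
      y ∈ YSet x ∧ m - finrank K (LinearMap.ker (x * y)) = s} :=
    class_sum (fun y : Module.End K V => y ∈ YSet x) (fun y => m - finrank K (LinearMap.ker (x * y))) (m + 1)
      (fun y _ => by omega)
  rw [h0]
  have hterm : ∀ s ∈ Finset.range (m + 1), Nat.card {y : Module.End K V //
      y ∈ YSet x ∧ m - finrank K (LinearMap.ker (x * y)) = s} ≤ (m + 1) * 4 ^ m * q ^ (m ^ 2 / 4) := by
    intro s _
    have h1 := fiber_le (fun y : Module.End K V => y ∈ YSet x ∧ m - finrank K (LinearMap.ker (x * y)) = s)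
      (fun y => LinearMap.ker (x * y)) {A : Submodule K V | LinearMap.ker x ≤ A ∧ finrank K A + s = m}
      (by
        rintro y ⟨hy, hs⟩
        refine ⟨?_, ?_⟩
        · intro v hv
          rw [LinearMap.mem_ker] at hv ⊢
          obtain ⟨u, hu⟩ := hy.2.2 v hv
          show x (y v) = 0
          rw [← hu]
          exact congrArg (fun r : Module.End K V => r u) hx
        · have := Submodule.finrank_le (LinearMap.ker (x * y))
          omega)
      (q ^ (s * (R - s))) ((m + 1) * 2 ^ m * q ^ (m ^ 2 / 4)) (by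
        rintro A ⟨-, hA⟩
        refine le_trans (Nat.mul_le_mul_right _ ?_) (card_Y_A x hx A s hA)
        refine Nat.card_le_card_of_injective (fun y => ⟨y.1, y.2.1.1, y.2.2⟩) ?_
        intro a b hab
        have hab' := congrArg Subtype.val hab
        exact Subtype.ext hab')
    have h2 : Nat.card {A : Submodule K V | LinearMap.ker x ≤ A ∧ finrank K A + s = m} ≤
        2 ^ m * q ^ (s * (R - s)) := by
      have h3 := card_sub_above (LinearMap.ker x) s
      rw [← hm, show m - finrank K (LinearMap.ker x) = R by omega] at h3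
      exact h3
    have h4 := h1.trans (Nat.mul_le_mul_right _ h2)
    have h5 : q ^ (s * (R - s)) * Nat.card {y : Module.End K V //
        y ∈ YSet x ∧ m - finrank K (LinearMap.ker (x * y)) = s} ≤
        q ^ (s * (R - s)) * ((m + 1) * 4 ^ m * q ^ (m ^ 2 / 4)) := by
      calc _ = Nat.card {y : Module.End K V //
            y ∈ YSet x ∧ m - finrank K (LinearMap.ker (x * y)) = s} * q ^ (s * (R - s)) := mul_comm _ _
        _ ≤ _ := h4
        _ = _ := by
            rw [show (4 : ℕ) ^ m = 2 ^ m * 2 ^ m by rw [← mul_pow]; norm_num]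
            ring
    exact Nat.le_of_mul_le_mul_left h5 (by positivity)
  refine (Finset.sum_le_card_nsmul _ _ _ hterm).trans ?_
  rw [Finset.card_range, smul_eq_mul]
  exact le_of_eq (by ring)

end H77AA
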